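import Mathlib

/-!
# Algebraic identities for the dispersionless BKP wave function
-/

namespace Q235.BK

section
variable {B : Type*} [CommRing B] [Algebra ℚ B]

lemma der_num (D : Derivation ℚ B B) (n : ℕ) [n.AtLeastTwo] : D (ofNat(n) : B) = 0 := by
  have h := D.map_natCast (OfNat.ofNat n)
  rwa [Nat.cast_ofNat] at h

variable (dx dy th de : Derivation ℚ B B) {X P N u v e : B}

lemma T3_eq (hX : th X = X) (hu : th u = 0) :
    3 * (P ^ 3 + 3 * u * X * P) - 2 * th (P ^ 3 + 3 * u * X * P)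
      = 3 * (P ^ 2 + u * X) * (P - 2 * th P) := by
  simp only [map_add, Derivation.leibniz, Derivation.leibniz_pow, der_num, hX, hu, smul_eq_mul,
    nsmul_eq_mul]
  push_cast
  ring

lemma T5_eq (hX : th X = X) (hu : th u = 0) (hv : th v = 0) :
    5 * (9 * P ^ 5 + 45 * u * X * P ^ 3 + (15 * v + 45 * u ^ 2) * X ^ 2 * P)
      - 2 * th (9 * P ^ 5 + 45 * u * X * P ^ 3 + (15 * v + 45 * u ^ 2) * X ^ 2 * P)
      = (45 * P ^ 4 + 135 * u * X * P ^ 2 + (15 * v + 45 * u ^ 2) * X ^ 2) * (P - 2 * th P) := by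
  simp only [map_add, Derivation.leibniz, Derivation.leibniz_pow, der_num, hX, hu, hv, smul_eq_mul,
    nsmul_eq_mul]
  push_cast
  ring

/-- the zero curvature identity -/
lemma zero_curv (hxX : dx X = 0) (hyX : dy X = 0) (huv : dy u = dx v)
    (E : X * dy P = dx (P ^ 3 + 3 * u * X * P)) :
    X * dy (9 * P ^ 5 + 45 * u * X * P ^ 3 + (15 * v + 45 * u ^ 2) * X ^ 2 * P)
      = (3 * P ^ 2 + 3 * u * X)
          * dx (9 * P ^ 5 + 45 * u * X * P ^ 3 + (15 * v + 45 * u ^ 2) * X ^ 2 * P)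
        + 3 * (15 * dx u * v + 15 * u * dx v - 45 * u ^ 2 * dx u + 5 * dy v) * X ^ 3 * P := by
  simp only [map_add, Derivation.leibniz, Derivation.leibniz_pow, der_num, hxX, hyX, huv,
    smul_eq_mul, nsmul_eq_mul] at E ⊢
  push_cast at E ⊢
  linear_combination (45 * P ^ 4 + 135 * u * X * P ^ 2 + (15 * v + 45 * u ^ 2) * X ^ 2) * E

/-- the linearised equation for the difference -/
lemma lin_eqn (hxX : dx X = 0) (hyX : dy X = 0) (hdX : de X = 0) (hxe : dx e = 0) (hye : dy e = 0)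
    (huv : dy u = dx v)
    (cx : ∀ a, de (dx a) = dx (de a)) (cy : ∀ a, de (dy a) = dy (de a))
    (cxy : ∀ a, dy (dx a) = dx (dy a))
    (hdu : de u = e * (15 * dx u * v + 15 * u * dx v - 45 * u ^ 2 * dx u + 5 * dy v))
    (E : X * dy P = dx (P ^ 3 + 3 * u * X * P)) :
    X * dy (X ^ 2 * de P
        - e * dx (9 * P ^ 5 + 45 * u * X * P ^ 3 + (15 * v + 45 * u ^ 2) * X ^ 2 * P))
      = dx ((3 * P ^ 2 + 3 * u * X) * (X ^ 2 * de P
        - e * dx (9 * P ^ 5 + 45 * u * X * P ^ 3 + (15 * v + 45 * u ^ 2) * X ^ 2 * P))) := by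
  have Z := zero_curv dx dy hxX hyX huv E
  set Q := 9 * P ^ 5 + 45 * u * X * P ^ 3 + (15 * v + 45 * u ^ 2) * X ^ 2 * P with hQ
  set W := 15 * dx u * v + 15 * u * dx v - 45 * u ^ 2 * dx u + 5 * dy v with hW
  -- apply `de` to the equation
  have E1 : X * dy (de P) = dx (3 * P ^ 2 * de P + 3 * (e * W) * X * P + 3 * u * X * de P) := by
    have h := congrArg de E
    rw [cx, Derivation.leibniz, hdX, cy, smul_zero, add_zero, smul_eq_mul] at h
    rw [h]
    congr 1
    simp only [map_add, Derivation.leibniz, Derivation.leibniz_pow, der_num, hdX, hdu,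
      smul_eq_mul, nsmul_eq_mul]
    push_cast
    ring
  -- apply `dx` to the zero curvature identity
  have Z1 : X * dy (dx Q) = dx ((3 * P ^ 2 + 3 * u * X) * dx Q + 3 * W * X ^ 3 * P) := by
    have h := congrArg dx Z
    rw [Derivation.leibniz, hxX, ← cxy, smul_zero, add_zero, smul_eq_mul] at h
    exact h
  have hx2 : dx (X ^ 2) = 0 := by simp [Derivation.leibniz_pow, hxX]
  have hy2 : dy (X ^ 2) = 0 := by simp [Derivation.leibniz_pow, hyX]
  have l1 : X * dy (X ^ 2 * de P - e * dx Q) = X ^ 2 * (X * dy (de P)) - e * (X * dy (dx Q)) := by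
    rw [map_sub, Derivation.leibniz, Derivation.leibniz, hy2, hye]
    simp only [smul_eq_mul]
    ring
  have l2 : ∀ F : B, X ^ 2 * dx F = dx (X ^ 2 * F) := by
    intro F
    rw [Derivation.leibniz, hx2]
    simp
  have l3 : ∀ F : B, e * dx F = dx (e * F) := by
    intro F
    rw [Derivation.leibniz, hxe]
    simp
  rw [l1, E1, Z1, l2, l3, ← map_sub]
  congr 1
  ring

/-- the identity behind the main computation -/
lemma main_id (a : ℕ) {P1 T3 T5 : B} (hxX : dx X = 0) (hyX : dy X = 0) (huv : dy u = dx v)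
    (E : X * dy P = dx (P ^ 3 + 3 * u * X * P)) (E1 : X * dy P1 = dx T3)
    (hT3 : T3 = 3 * (P ^ 2 + u * X) * P1)
    (hT5 : T5 = (45 * P ^ 4 + 135 * u * X * P ^ 2 + (15 * v + 45 * u ^ 2) * X ^ 2) * P1)
    (hNx : dx N = X * P1) (hNy : dy N = T3) :
    (15 * v - 45 * u ^ 2) * X ^ 2 * dx (N ^ a * P1) + 15 * u * X * dx (N ^ a * T3)
      + 5 * (X * dy (N ^ a * T3)) = dx (N ^ a * T5) := by
  have hE1 : X * dy P1 = dx (3 * (P ^ 2 + u * X) * P1) := by rw [E1, hT3]
  have k1 : dx (N ^ a * T5) = N ^ a * dx T5 + (a * N ^ (a - 1)) * (X * P1) * T5 := by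
    rw [Derivation.leibniz, Derivation.leibniz_pow, hNx]
    simp only [smul_eq_mul, nsmul_eq_mul]; ring
  have k2 : dx (N ^ a * P1) = N ^ a * dx P1 + (a * N ^ (a - 1)) * (X * P1) * P1 := by
    rw [Derivation.leibniz, Derivation.leibniz_pow, hNx]
    simp only [smul_eq_mul, nsmul_eq_mul]; ring
  have k3 : dx (N ^ a * T3) = N ^ a * dx T3 + (a * N ^ (a - 1)) * (X * P1) * T3 := by
    rw [Derivation.leibniz, Derivation.leibniz_pow, hNx]
    simp only [smul_eq_mul, nsmul_eq_mul]; ring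
  have k4 : dy (N ^ a * T3) = N ^ a * dy T3 + (a * N ^ (a - 1)) * T3 * T3 := by
    rw [Derivation.leibniz, Derivation.leibniz_pow, hNy]
    simp only [smul_eq_mul, nsmul_eq_mul]; ring
  have k5 : (15 * v - 45 * u ^ 2) * X ^ 2 * dx P1 + 15 * u * X * dx T3 + 5 * (X * dy T3)
      = dx T5 := by
    rw [hT3, hT5]
    simp only [map_add, Derivation.leibniz, Derivation.leibniz_pow, der_num, hxX, hyX, huv,
      smul_eq_mul, nsmul_eq_mul] at E hE1 ⊢
    push_cast at E hE1 ⊢
    linear_combination 30 * P * P1 * E + 15 * (P ^ 2 + u * X) * hE1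
  rw [k1, k2, k3, k4, ← k5]
  rw [hT3, hT5]
  ring

/-- the `x`-form of the `y`-derivative -/
lemma y_id (a : ℕ) {P1 T3 : B} (E1 : X * dy P1 = dx T3)
    (hNx : dx N = X * P1) (hNy : dy N = T3) :
    X * dy (N ^ a * P1) = dx (N ^ a * T3) := by
  rw [Derivation.leibniz, Derivation.leibniz, Derivation.leibniz_pow, Derivation.leibniz_pow,
    hNx, hNy]
  simp only [smul_eq_mul, nsmul_eq_mul]
  linear_combination N ^ a * E1

/-- the `δ`-derivative -/
lemma d_id (a : ℕ) {P1 T5 : B} (D1 : X ^ 2 * de P1 = e * dx T5)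
    (hNx : dx N = X * P1) (hNd : X * de N = e * (T5 - 45)) :
    X ^ 2 * de (N ^ a * P1) = e * dx (N ^ a * T5) - e * (45 * a) * (X * (N ^ (a - 1) * P1)) := by
  rw [Derivation.leibniz, Derivation.leibniz, Derivation.leibniz_pow, Derivation.leibniz_pow, hNx]
  simp only [smul_eq_mul, nsmul_eq_mul]
  linear_combination N ^ a * D1 + X * P1 * (a * N ^ (a - 1)) * hNd

end

end Q235.BK
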