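import Mathlib

/-!
# The nonlocal differential calculus of the dispersionless potential BKP equation (definitions)
-/

namespace Q235.BK

/-- A model of the calculus of nonlocal differential expressions in two independent variables
`x`, `y`: a commutative `ℚ`-algebra `A` with commuting derivations `dx`, `dy`, a linear operator
`J` (the formal inverse of `dx`) and an ideal `Z` (the expressions that vanish for `w = 0`).
On `Z` the operator `J` is the two-sided inverse of `dx`; on the explicit functions `x^i y^j` it is
`x^(i+1) y^j / (i+1)`. -/
structure Calculus (A : Type*) [CommRing A] [Algebra ℚ A] where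
  dx : Derivation ℚ A A
  dy : Derivation ℚ A A
  J : A →ₗ[ℚ] A
  x : A
  y : A
  Z : Ideal A
  comm : ∀ a, dx (dy a) = dy (dx a)
  dx_x : dx x = 1
  dy_x : dy x = 0
  dx_y : dx y = 0
  dy_y : dy y = 1
  dx_mem : ∀ a ∈ Z, dx a ∈ Z
  dy_mem : ∀ a ∈ Z, dy a ∈ Z
  J_mem : ∀ a ∈ Z, J a ∈ Z
  dx_J : ∀ a ∈ Z, dx (J a) = a
  J_dx : ∀ a ∈ Z, J (dx a) = a
  J_monomial : ∀ i j : ℕ, J (x ^ i * y ^ j) = (1 / ((i : ℚ) + 1)) • (x ^ (i + 1) * y ^ j)

/-- Nonlocal differential expressions in one unknown function `w` and in `x`, `y`. -/
inductive Expression : Type
  /-- a rational constant -/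
  | const (q : ℚ) : Expression
  /-- the variable `x` -/
  | X : Expression
  /-- the variable `y` -/
  | Y : Expression
  /-- the unknown function `w` -/
  | W : Expression
  | add (f g : Expression) : Expression
  | mul (f g : Expression) : Expression
  /-- the derivative with respect to `x` -/
  | dx (f : Expression) : Expression
  /-- the derivative with respect to `y` -/
  | dy (f : Expression) : Expression
  /-- the formal inverse of the derivative with respect to `x` -/
  | J (f : Expression) : Expression

namespace Expression

/-- The Frechet (Gateaux) derivative `f'[h]` of the expression `f` in `w`, in the direction of the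
expression `h`. -/
def frechet (h : Expression) : Expression → Expression
  | const _ => const 0
  | X => const 0
  | Y => const 0
  | W => h
  | add f g => add (frechet h f) (frechet h g)
  | mul f g => add (mul (frechet h f) g) (mul f (frechet h g))
  | dx f => dx (frechet h f)
  | dy f => dy (frechet h f)
  | J f => J (frechet h f)

/-- `V = 15 w_x w_y - 15 w_x ^ 3 + 5 J (w_yy)`. -/
def V : Expression :=
  add (add (mul (const 15) (mul (dx W) (dy W)))
    (mul (const (-15)) (mul (dx W) (mul (dx W) (dx W)))))
    (mul (const 5) (J (dy (dy W))))

/-- The commutator operator `f ↦ V'[f] - f'[V]`. -/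
def bracket (f : Expression) : Expression :=
  add (frechet f V) (mul (const (-1)) (frechet V f))

/-- The expression `y ^ n`. -/
def ypow : ℕ → Expression
  | 0 => const 1
  | n + 1 => mul (ypow n) Y

/-- The value of an expression in a calculus, at an element `w`. -/
def eval {A : Type*} [CommRing A] [Algebra ℚ A] (c : Calculus A) (w : A) : Expression → A
  | const q => algebraMap ℚ A q
  | X => c.x
  | Y => c.y
  | W => w
  | add f g => eval c w f + eval c w g
  | mul f g => eval c w f * eval c w g
  | dx f => c.dx (eval c w f)
  | dy f => c.dy (eval c w f)
  | J f => c.J (eval c w f)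

end Expression

end Q235.BK
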