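import Pool.Agent.Q235.BK.Series
import Pool.Agent.Q235.BK.Alg

/-!
# The flow lemma
-/

namespace Q235.BK

open PowerSeries

variable {A : Type*} [CommRing A] [Algebra ℚ A] (c : Calculus A)

lemma uniq {u : A} {q : A⟦X⟧} (hq : q ∈ ZS c.Z)
    (h : X * hat c.dy q = hat c.dx ((3 * P c u ^ 2 + 3 * C u * X) * q)) : q = 0 := by
  have h3 : constantCoeff (3 : A⟦X⟧) = 3 := map_ofNat constantCoeff 3
  have hP : constantCoeff (P c u) = 1 := by
    have := coeff_P_zero c u
    rwa [coeff_zero_eq_constantCoeff_apply] at this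
  have key : ∀ k, ∀ j, j < k → coeff j q = 0 := by
    intro k
    induction k with
    | zero => intro j hj; omega
    | succ k ih =>
      intro j hj
      rcases Nat.lt_succ_iff_lt_or_eq.mp hj with hj | rfl
      · exact ih j hj
      · obtain ⟨R, hR⟩ := X_pow_dvd_iff.mpr ih
        have e1 : coeff j (hat c.dx ((3 * P c u ^ 2 + 3 * C u * X) * q)) = c.dx (3 * coeff 0 R) := by
          rw [coeff_hat, hR]
          have e2 : (3 * P c u ^ 2 + 3 * C u * X) * (X ^ j * R)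
            = X ^ j * ((3 * P c u ^ 2 + 3 * C u * X) * R) := by ring
          rw [e2]
          have := coeff_X_pow_mul ((3 * P c u ^ 2 + 3 * C u * X) * R) j 0
          rw [zero_add] at this
          rw [this, coeff_zero_eq_constantCoeff_apply, coeff_zero_eq_constantCoeff_apply]
          simp [h3, hP]
        have e3 : coeff j (X * hat c.dy q) = 0 := by
          cases j with
          | zero => simp
          | succ j =>
            rw [coeff_succ_X_mul, coeff_hat, ih j (by omega), map_zero]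
        have e4 : coeff j q = coeff 0 R := by
          rw [hR]
          have := coeff_X_pow_mul R j 0
          rwa [zero_add] at this
        rw [h, e1] at e3
        have e5 : c.dx (coeff 0 R) = 0 := by
          rw [Derivation.leibniz, der_num, smul_zero, add_zero, smul_eq_mul] at e3
          have h4 : algebraMap ℚ A (1 / 3) * 3 = 1 := by
            have : (3 : A) = algebraMap ℚ A 3 := (map_ofNat (algebraMap ℚ A) 3).symm
            rw [this, ← map_mul]
            norm_num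
          calc c.dx (coeff 0 R) = algebraMap ℚ A (1 / 3) * 3 * c.dx (coeff 0 R) := by
                rw [h4, one_mul]
            _ = 0 := by rw [mul_assoc, e3, mul_zero]
        rw [e4]
        apply c.inj _ e5
        rw [← e4]
        exact mem_ZS.mp hq j
  ext k
  rw [map_zero]
  exact key (k + 1) k (by omega)

/-- the value of `V` -/
def Vval (w : A) : A :=
  15 * (c.dx w * c.dy w) - 15 * (c.dx w * (c.dx w * c.dx w)) + 5 * c.J (c.dy (c.dy w))

/-- the value of the linearisation of `V` at `w` in the direction `f` -/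
def Vlin (w f : A) : A :=
  15 * (c.dx f * c.dy w + c.dx w * c.dy f) - 45 * c.dx w ^ 2 * c.dx f + 5 * c.J (c.dy (c.dy f))

/-- a derivation along the flow of `V` (with a constant factor `e`) -/
structure Flow (w : A) where
  de : Derivation ℚ A A
  e : A
  cx : ∀ a, de (c.dx a) = c.dx (de a)
  cy : ∀ a, de (c.dy a) = c.dy (de a)
  dxe : c.dx e = 0
  dye : c.dy e = 0
  de_x : de c.x = 0
  de_y : de c.y = 0
  mem : ∀ a ∈ c.Z, de a ∈ c.Z
  hw : de w = e * Vval c w

/-- `p_λ` -/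
noncomputable def P1 (u : A) : A⟦X⟧ := P c u - 2 * Th (P c u)

noncomputable def T3 (u : A) : A⟦X⟧ := 3 * Q3 c u - 2 * Th (Q3 c u)

noncomputable def Q5 (u v : A) : A⟦X⟧ :=
  9 * P c u ^ 5 + 45 * C u * X * P c u ^ 3 + (15 * C v + 45 * C u ^ 2) * X ^ 2 * P c u

noncomputable def T5 (u v : A) : A⟦X⟧ := 5 * Q5 c u v - 2 * Th (Q5 c u v)

/-- the Orlov-Schulman function (times `λ⁻²`) -/
noncomputable def N (u : A) : A⟦X⟧ :=
  C (3 * c.y) + X * (C c.x + X * PowerSeries.mk fun k => c.J (coeff (k + 1) (P1 c u)))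

lemma P1_sub_one_mem {u : A} (hu : u ∈ c.Z) : P1 c u - 1 ∈ ZS c.Z := by
  have h := P_sub_one_mem c u hu
  have e : P1 c u - 1 = (P c u - 1) - 2 * Th (P c u - 1) := by
    rw [P1, map_sub, Derivation.map_one_eq_zero]; ring
  rw [e]
  exact (ZS c.Z).sub_mem h (Ideal.mul_mem_left _ _ (Th_mem_ZS h))

lemma Q3_sub_one_mem {u : A} (hu : u ∈ c.Z) : Q3 c u - 1 ∈ ZS c.Z := by
  have h := P_sub_one_mem c u hu
  have e : Q3 c u - 1 = (P c u ^ 2 + P c u + 1) * (P c u - 1) + (3 * X * P c u) * C u := by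
    rw [Q3]; ring
  rw [e]
  exact (ZS c.Z).add_mem (Ideal.mul_mem_left _ _ h) (Ideal.mul_mem_left _ _ (C_mem_ZS hu))

lemma Q5_sub_mem {u v : A} (hu : u ∈ c.Z) (hv : v ∈ c.Z) : Q5 c u v - 9 ∈ ZS c.Z := by
  have h := P_sub_one_mem c u hu
  have e : Q5 c u v - 9 = (9 * (P c u ^ 4 + P c u ^ 3 + P c u ^ 2 + P c u + 1)) * (P c u - 1)
      + (45 * X * P c u ^ 3 + 45 * C u * X ^ 2 * P c u) * C u + (15 * X ^ 2 * P c u) * C v := by
    rw [Q5]; ring
  rw [e]
  exact (ZS c.Z).add_mem ((ZS c.Z).add_mem (Ideal.mul_mem_left _ _ h)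
    (Ideal.mul_mem_left _ _ (C_mem_ZS hu))) (Ideal.mul_mem_left _ _ (C_mem_ZS hv))

lemma T3_sub_mem {u : A} (hu : u ∈ c.Z) : T3 c u - 3 ∈ ZS c.Z := by
  have h := Q3_sub_one_mem c hu
  have e : T3 c u - 3 = 3 * (Q3 c u - 1) - 2 * Th (Q3 c u - 1) := by
    rw [T3, map_sub, Derivation.map_one_eq_zero]; ring
  rw [e]
  exact (ZS c.Z).sub_mem (Ideal.mul_mem_left _ _ h) (Ideal.mul_mem_left _ _ (Th_mem_ZS h))

lemma T5_sub_mem {u v : A} (hu : u ∈ c.Z) (hv : v ∈ c.Z) : T5 c u v - 45 ∈ ZS c.Z := by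
  have h := Q5_sub_mem c hu hv
  have e : T5 c u v - 45 = 5 * (Q5 c u v - 9) - 2 * Th (Q5 c u v - 9) := by
    rw [T5, map_sub, der_num]; ring
  rw [e]
  exact (ZS c.Z).sub_mem (Ideal.mul_mem_left _ _ h) (Ideal.mul_mem_left _ _ (Th_mem_ZS h))

lemma Th_X_mul (F : A⟦X⟧) : Th (X * F) = X * F + X * Th F := by
  rw [Derivation.leibniz, Th_X]
  simp only [smul_eq_mul]
  ring

/-- `X ∂_y P₁ = ∂_x T₃` -/
lemma P1_eqn {u : A} (hu : u ∈ c.Z) : X * hat c.dy (P1 c u) = hat c.dx (T3 c u) := by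
  have h := P_eqn c u hu
  have h2 : Th (X * hat c.dy (P c u)) = Th (hat c.dx (Q3 c u)) := by rw [h]
  rw [Th_X_mul, ← hat_Th, ← hat_Th] at h2
  rw [P1, T3, map_sub, map_sub, Derivation.leibniz, Derivation.leibniz, Derivation.leibniz,
    der_num, der_num, der_num]
  simp only [smul_eq_mul, mul_zero, add_zero]
  linear_combination 3 * h - 2 * h2

lemma coeff_N_zero (u : A) : coeff 0 (N c u) = 3 * c.y := by
  rw [coeff_zero_eq_constantCoeff_apply]
  simp [N]

lemma coeff_N_one (u : A) : coeff 1 (N c u) = c.x := by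
  rw [N, map_add, coeff_C, if_neg (by omega), show (1 : ℕ) = 0 + 1 from rfl, coeff_succ_X_mul,
    coeff_zero_eq_constantCoeff_apply]
  simp

lemma coeff_N_succ_succ (u : A) (k : ℕ) : coeff (k + 2) (N c u) = c.J (coeff (k + 1) (P1 c u)) := by
  rw [N, map_add, coeff_C, if_neg (by omega), show k + 2 = (k + 1) + 1 from rfl, coeff_succ_X_mul,
    map_add, coeff_C, if_neg (by omega), coeff_succ_X_mul, coeff_mk]
  simp

lemma coeff_P1_succ_mem {u : A} (hu : u ∈ c.Z) (k : ℕ) : coeff (k + 1) (P1 c u) ∈ c.Z := by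
  have h := mem_ZS.mp (P1_sub_one_mem c hu) (k + 1)
  rwa [map_sub, coeff_one, if_neg (by omega), sub_zero] at h

lemma coeff_P1_zero (u : A) : coeff 0 (P1 c u) = 1 := by
  have h2 : (2 : A⟦X⟧) = C 2 := (map_ofNat C 2).symm
  rw [P1, map_sub, h2, coeff_C_mul, coeff_Th, coeff_P_zero]
  simp

/-- `∂_x N = X P₁` -/
lemma N_x {u : A} (hu : u ∈ c.Z) : hat c.dx (N c u) = X * P1 c u := by
  ext k
  rw [coeff_hat]
  match k with
  | 0 =>
    rw [coeff_N_zero, Derivation.leibniz, der_num, c.dx_y]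
    simp
  | 1 =>
    rw [coeff_N_one, c.dx_x, show (1 : ℕ) = 0 + 1 from rfl, coeff_succ_X_mul, coeff_P1_zero]
  | k + 2 =>
    rw [coeff_N_succ_succ, show k + 2 = (k + 1) + 1 from rfl, coeff_succ_X_mul,
      c.dx_J _ (coeff_P1_succ_mem c hu k)]

/-- the part of `N` in `Z` -/
lemma N_sub_mem {u : A} (hu : u ∈ c.Z) : N c u - (C (3 * c.y) + X * C c.x) ∈ ZS c.Z := by
  have e : N c u - (C (3 * c.y) + X * C c.x)
      = X * (X * PowerSeries.mk fun k => c.J (coeff (k + 1) (P1 c u))) := by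
    rw [N]; ring
  rw [e]
  refine Ideal.mul_mem_left _ _ (Ideal.mul_mem_left _ _ ?_)
  rw [mem_ZS]
  intro k
  rw [coeff_mk]
  exact c.J_mem _ (coeff_P1_succ_mem c hu k)

/-- `∂_y N = T₃` -/
lemma N_y {u : A} (hu : u ∈ c.Z) : hat c.dy (N c u) = T3 c u := by
  have h1 : hat c.dy (N c u) - T3 c u ∈ ZS c.Z := by
    have h2 := hat_mem_ZS c.dy c.dy_mem (N_sub_mem c hu)
    have e : hat c.dy (N c u) - T3 c u
        = hat c.dy (N c u - (C (3 * c.y) + X * C c.x)) - (T3 c u - 3) := by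
      rw [map_sub, map_add, Derivation.leibniz, hat_C, hat_C, hat_X, c.dy_x, Derivation.leibniz,
        der_num, c.dy_y]
      have h3 : (C (3 : A) : A⟦X⟧) = 3 := map_ofNat C 3
      simp [h3]
    rw [e]
    exact (ZS c.Z).sub_mem h2 (T3_sub_mem c hu)
  have h4 := c.hinj h1 (by
    rw [map_sub, hat_comm c.dx c.dy c.comm, N_x c hu, Derivation.leibniz, hat_X, ← P1_eqn c hu]
    simp)
  exact sub_eq_zero.mp h4

section flow

variable {c} {w : A} (fl : Flow c w)

lemma Flow.de_J {a : A} (ha : a ∈ c.Z) : fl.de (c.J a) = c.J (fl.de a) := by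
  have h1 : fl.de (c.J a) - c.J (fl.de a) ∈ c.Z :=
    c.Z.sub_mem (fl.mem _ (c.J_mem _ ha)) (c.J_mem _ (fl.mem _ ha))
  have h2 := c.inj h1 (by
    rw [map_sub, ← fl.cx, c.dx_J _ ha, c.dx_J _ (fl.mem _ ha), sub_self])
  exact sub_eq_zero.mp h2

lemma Flow.dV (hw : w ∈ c.Z) : fl.de (c.dx w) = fl.e * (15 * c.dx (c.dx w) * c.dy w
      + 15 * c.dx w * c.dx (c.dy w) - 45 * c.dx w ^ 2 * c.dx (c.dx w)
      + 5 * c.dy (c.dy w)) := by
  rw [fl.cx, fl.hw, Vval]
  simp only [map_add, map_sub, Derivation.leibniz, der_num, fl.dxe, smul_eq_mul, mul_zero,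
    add_zero]
  rw [c.dx_J _ (c.dy_mem _ (c.dy_mem _ hw))]
  ring

/-- `X² δP = e ∂_x Q₅` -/
lemma Flow.P_eqn (hw : w ∈ c.Z) : X ^ 2 * hat fl.de (P c (c.dx w))
    - C fl.e * hat c.dx (Q5 c (c.dx w) (c.dy w)) = 0 := by
  have hu := c.dx_mem _ hw
  have hv := c.dy_mem _ hw
  apply uniq c (u := c.dx w)
  · refine (ZS c.Z).sub_mem (Ideal.mul_mem_left _ _ ?_) (Ideal.mul_mem_left _ _ ?_)
    · have e : hat fl.de (P c (c.dx w)) = hat fl.de (P c (c.dx w) - 1) := by
        rw [map_sub, Derivation.map_one_eq_zero, sub_zero]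
      rw [e]
      exact hat_mem_ZS _ fl.mem (P_sub_one_mem c _ hu)
    · have e : hat c.dx (Q5 c (c.dx w) (c.dy w)) = hat c.dx (Q5 c (c.dx w) (c.dy w) - 9) := by
        rw [map_sub, der_num, sub_zero]
      rw [e]
      exact hat_mem_ZS _ c.dx_mem (Q5_sub_mem c hu hv)
  · have h5 : ∀ n : ℕ, ∀ [n.AtLeastTwo], (C (ofNat(n) : A) : A⟦X⟧) = ofNat(n) :=
      fun n _ => map_ofNat C n
    exact lin_eqn (hat c.dx) (hat c.dy) (hat fl.de) (hat_X _) (hat_X _) (hat_X _)
      (by rw [hat_C, fl.dxe, map_zero]) (by rw [hat_C, fl.dye, map_zero])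
      (by rw [hat_C, hat_C, c.comm])
      (hat_comm _ _ fl.cx) (hat_comm _ _ fl.cy) (hat_comm _ _ (fun a => (c.comm a).symm))
      (by
        simp only [hat_C]
        rw [fl.dV hw]
        simp only [map_mul, map_add, map_sub, map_pow, h5])
      (BK.P_eqn c _ hu)

/-- `X² δP₁ = e ∂_x T₅` -/
lemma Flow.P1_eqn (hw : w ∈ c.Z) : X ^ 2 * hat fl.de (P1 c (c.dx w))
    = C fl.e * hat c.dx (T5 c (c.dx w) (c.dy w)) := by
  have h := sub_eq_zero.mp (fl.P_eqn hw)
  have h2 := congrArg Th h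
  have e : (X : A⟦X⟧) ^ 2 * hat fl.de (P c (c.dx w)) = X * (X * hat fl.de (P c (c.dx w))) := by
    ring
  rw [e, Th_X_mul, Th_X_mul, Derivation.leibniz, Th_C, ← hat_Th, ← hat_Th] at h2
  simp only [smul_eq_mul, mul_zero, add_zero] at h2
  rw [P1, T5, map_sub, map_sub, Derivation.leibniz, Derivation.leibniz, Derivation.leibniz,
    der_num, der_num, der_num]
  simp only [smul_eq_mul, mul_zero, add_zero]
  linear_combination 5 * h - 2 * h2

/-- `X δN = e (T₅ - 45)` -/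
lemma Flow.N_eqn (hw : w ∈ c.Z) : X * hat fl.de (N c (c.dx w))
    = C fl.e * (T5 c (c.dx w) (c.dy w) - 45) := by
  have hu := c.dx_mem _ hw
  have hv := c.dy_mem _ hw
  have h1 : X * hat fl.de (N c (c.dx w)) - C fl.e * (T5 c (c.dx w) (c.dy w) - 45) ∈ ZS c.Z := by
    refine (ZS c.Z).sub_mem (Ideal.mul_mem_left _ _ ?_)
      (Ideal.mul_mem_left _ _ (T5_sub_mem c hu hv))
    have h2 := hat_mem_ZS fl.de fl.mem (N_sub_mem c hu)
    have e : hat fl.de (N c (c.dx w))
        = hat fl.de (N c (c.dx w) - (C (3 * c.y) + X * C c.x)) := by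
      rw [map_sub, map_add, Derivation.leibniz, hat_C, hat_C, hat_X, fl.de_x, Derivation.leibniz,
        der_num, fl.de_y]
      simp
    rw [e]
    exact h2
  have h4 := c.hinj h1 (by
    rw [map_sub, Derivation.leibniz, Derivation.leibniz, hat_X, hat_C, fl.dxe, map_sub, der_num,
      hat_comm c.dx fl.de (fun a => (fl.cx a).symm), N_x c hu, Derivation.leibniz, hat_X]
    simp only [smul_eq_mul, mul_zero, add_zero, sub_zero, map_zero]
    rw [← fl.P1_eqn hw]
    ring)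
  exact sub_eq_zero.mp h4

end flow

/-- the functions `G a k = coeff_k (N^a P₁)` -/
noncomputable def G (w : A) (a k : ℕ) : A := coeff k (N c (c.dx w) ^ a * P1 c (c.dx w))

/-- `J` inverts `dx` on the span of `Z` and of the monomials divisible by `x` -/
lemma coeff_N0_pow (a k : ℕ) : c.J (c.dx (c.dy (coeff (k + 1)
      ((C (3 * c.y) + X * C c.x : A⟦X⟧) ^ a))))
    = c.dy (coeff (k + 1) ((C (3 * c.y) + X * C c.x : A⟦X⟧) ^ a)) := by
  -- the coefficient of index m lies in the span of x^m y^j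
  have key : ∀ a m : ℕ, coeff m ((C (3 * c.y) + X * C c.x : A⟦X⟧) ^ a)
      ∈ Submodule.span ℚ (Set.range fun j : ℕ => c.x ^ m * c.y ^ j) := by
    intro a
    induction a with
    | zero =>
      intro m
      rw [pow_zero, coeff_one]
      split_ifs with h
      · subst h
        exact Submodule.subset_span ⟨0, by simp⟩
      · exact Submodule.zero_mem _
    | succ a ih =>
      intro m
      have h3 : ∀ z ∈ Submodule.span ℚ (Set.range fun j : ℕ => c.x ^ m * c.y ^ j),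
          3 * c.y * z ∈ Submodule.span ℚ (Set.range fun j : ℕ => c.x ^ m * c.y ^ j) := by
        intro z hz
        refine Submodule.span_induction ?_ ?_ ?_ ?_ hz
        · rintro _ ⟨j, rfl⟩
          have e : 3 * c.y * (c.x ^ m * c.y ^ j) = (3 : ℚ) • (c.x ^ m * c.y ^ (j + 1)) := by
            rw [Algebra.smul_def, map_ofNat]; ring
          simp only
          rw [e]
          exact Submodule.smul_mem _ _ (Submodule.subset_span ⟨j + 1, rfl⟩)
        · rw [mul_zero]; exact Submodule.zero_mem _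
        · intro z1 z2 _ _ h1 h2
          rw [mul_add]; exact Submodule.add_mem _ h1 h2
        · intro q z _ h1
          rw [mul_smul_comm]; exact Submodule.smul_mem _ _ h1
      have e0 : (C (3 * c.y) + X * C c.x : A⟦X⟧) ^ (a + 1)
          = C (3 * c.y) * (C (3 * c.y) + X * C c.x : A⟦X⟧) ^ a
            + X * (C c.x * (C (3 * c.y) + X * C c.x : A⟦X⟧) ^ a) := by ring
      rw [e0, map_add, coeff_C_mul]
      refine Submodule.add_mem _ (h3 _ (ih m)) ?_
      cases m with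
      | zero => rw [coeff_zero_X_mul]; exact Submodule.zero_mem _
      | succ m =>
        rw [coeff_succ_X_mul, coeff_C_mul]
        refine Submodule.span_induction ?_ ?_ ?_ ?_ (ih m)
        · rintro _ ⟨j, rfl⟩
          exact Submodule.subset_span ⟨j, by simp only; ring⟩
        · rw [mul_zero]; exact Submodule.zero_mem _
        · intro z1 z2 _ _ h1 h2
          rw [mul_add]; exact Submodule.add_mem _ h1 h2
        · intro q z _ h1
          rw [mul_smul_comm]; exact Submodule.smul_mem _ _ h1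
  refine Submodule.span_induction ?_ ?_ ?_ ?_ (key a (k + 1))
  · rintro _ ⟨j, rfl⟩
    simp only
    have e1 : c.dy (c.x ^ (k + 1) * c.y ^ j) = (j : ℚ) • (c.x ^ (k + 1) * c.y ^ (j - 1)) := by
      rw [Derivation.leibniz, Derivation.leibniz_pow, Derivation.leibniz_pow, c.dy_x, c.dy_y,
        Nat.cast_smul_eq_nsmul ℚ]
      simp only [smul_eq_mul, nsmul_eq_mul, mul_zero, add_zero, mul_one]
      ring
    have e2 : c.dx (c.x ^ (k + 1) * c.y ^ (j - 1))
        = ((k + 1 : ℕ) : ℚ) • (c.x ^ k * c.y ^ (j - 1)) := by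
      rw [Derivation.leibniz, Derivation.leibniz_pow, Derivation.leibniz_pow, c.dx_x, c.dx_y,
        Nat.cast_smul_eq_nsmul ℚ]
      simp only [smul_eq_mul, nsmul_eq_mul, mul_zero, mul_one,
        Nat.add_sub_cancel, zero_add]
      ring
    rw [e1, Derivation.map_smul, e2, map_smul, map_smul, c.J_monomial,
      smul_smul ((k + 1 : ℕ) : ℚ)]
    have h6 : ((k + 1 : ℕ) : ℚ) * (1 / ((k : ℚ) + 1)) = 1 := by
      push_cast
      have : (k : ℚ) + 1 ≠ 0 := by positivity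
      field_simp
    rw [h6, one_smul]
  · simp
  · intro z1 z2 _ _ h1 h2
    simp only [map_add, h1, h2]
  · intro q z _ h1
    rw [Derivation.map_smul, Derivation.map_smul, map_smul, h1]

/-- `J` inverts `dx` on `∂_y` of the coefficients of `N^a T₃` -/
lemma good {w : A} (hw : w ∈ c.Z) (a k : ℕ) :
    c.J (c.dx (c.dy (coeff (k + 1) (N c (c.dx w) ^ a * T3 c (c.dx w)))))
      = c.dy (coeff (k + 1) (N c (c.dx w) ^ a * T3 c (c.dx w))) := by
  have hu := c.dx_mem _ hw
  set N0 : A⟦X⟧ := C (3 * c.y) + X * C c.x with hN0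
  have h1 : N c (c.dx w) ^ a * T3 c (c.dx w) - 3 * N0 ^ a ∈ ZS c.Z := by
    have h2 : N c (c.dx w) ^ a - N0 ^ a ∈ ZS c.Z := by
      have h3 := N_sub_mem c hu
      rw [← hN0] at h3
      exact Ideal.mem_of_dvd _ (sub_dvd_pow_sub_pow _ _ a) h3
    have e : N c (c.dx w) ^ a * T3 c (c.dx w) - 3 * N0 ^ a
        = T3 c (c.dx w) * (N c (c.dx w) ^ a - N0 ^ a) + N0 ^ a * (T3 c (c.dx w) - 3) := by ring
    rw [e]
    exact (ZS c.Z).add_mem (Ideal.mul_mem_left _ _ h2) (Ideal.mul_mem_left _ _ (T3_sub_mem c hu))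
  have h4 := mem_ZS.mp h1 (k + 1)
  set g := coeff (k + 1) (N c (c.dx w) ^ a * T3 c (c.dx w)) with hg
  have h3C : (3 : A⟦X⟧) = C 3 := (map_ofNat C 3).symm
  rw [map_sub, ← hg, h3C, coeff_C_mul] at h4
  have e : g = (g - 3 * coeff (k + 1) (N0 ^ a)) + (3 : ℚ) • coeff (k + 1) (N0 ^ a) := by
    rw [Algebra.smul_def, map_ofNat]; ring
  rw [e, map_add, map_add, map_add, c.J_dx _ (c.dy_mem _ h4), Derivation.map_smul,
    Derivation.map_smul, map_smul, coeff_N0_pow c a k]

/-- the linearisation of `V` on `G` -/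
lemma Vlin_G {w : A} (hw : w ∈ c.Z) (a k : ℕ) : Vlin c w (G c w a k)
    = coeff (k + 2) (hat c.dx (N c (c.dx w) ^ a * T5 c (c.dx w) (c.dy w))) := by
  have hu := c.dx_mem _ hw
  have hNx := N_x c hu
  have hNy := N_y c hu
  have hT3 : T3 c (c.dx w) = 3 * (P c (c.dx w) ^ 2 + C (c.dx w) * X) * P1 c (c.dx w) := by
    have t := T3_eq (X := (X : A⟦X⟧)) (P := P c (c.dx w)) (u := C (c.dx w)) Th Th_X (Th_C _)
    unfold T3 Q3 P1
    exact t
  have hT5 : T5 c (c.dx w) (c.dy w) = (45 * P c (c.dx w) ^ 4 + 135 * C (c.dx w) * X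
      * P c (c.dx w) ^ 2 + (15 * C (c.dy w) + 45 * C (c.dx w) ^ 2) * X ^ 2) * P1 c (c.dx w) := by
    have t := T5_eq (X := (X : A⟦X⟧)) (P := P c (c.dx w)) (u := C (c.dx w)) (v := C (c.dy w))
      Th Th_X (Th_C _) (Th_C _)
    unfold T5 Q5 P1
    exact t
  have hE := P_eqn c _ hu
  rw [Q3] at hE
  have m := main_id (hat c.dx) (hat c.dy) a (hat_X _) (hat_X _)
    (by rw [hat_C, hat_C, c.comm]) hE (P1_eqn c hu) hT3 hT5 hNx hNy
  have y := y_id (hat c.dx) (hat c.dy) a (P1_eqn c hu) hNx hNy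
  -- the four pieces
  have gx : c.dx (G c w a k)
      = coeff (k + 2) (X ^ 2 * hat c.dx (N c (c.dx w) ^ a * P1 c (c.dx w))) := by
    rw [coeff_X_pow_mul, coeff_hat, G]
  have gy : c.dy (G c w a k)
      = coeff (k + 1) (hat c.dx (N c (c.dx w) ^ a * T3 c (c.dx w))) := by
    rw [← y, coeff_succ_X_mul, coeff_hat, G]
  have gyy : c.J (c.dy (c.dy (G c w a k)))
      = coeff (k + 1) (hat c.dy (N c (c.dx w) ^ a * T3 c (c.dx w))) := by
    rw [gy, coeff_hat, ← c.comm, good c hw, coeff_hat]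
  have h5 : ∀ n : ℕ, ∀ [n.AtLeastTwo], (ofNat(n) : A⟦X⟧) = C (ofNat(n) : A) :=
    fun n _ => (map_ofNat C n).symm
  rw [← m, map_add, map_add, Vlin, gyy, gy, gx]
  have e1 : coeff (k + 2) ((15 * C (c.dy w) - 45 * C (c.dx w) ^ 2) * X ^ 2
      * hat c.dx (N c (c.dx w) ^ a * P1 c (c.dx w)))
      = (15 * c.dy w - 45 * c.dx w ^ 2)
        * coeff (k + 2) (X ^ 2 * hat c.dx (N c (c.dx w) ^ a * P1 c (c.dx w))) := by
    rw [h5, h5, ← map_pow, ← map_mul, ← map_mul, ← map_sub, mul_assoc, coeff_C_mul]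
  have e2 : coeff (k + 2) (15 * C (c.dx w) * X
      * hat c.dx (N c (c.dx w) ^ a * T3 c (c.dx w)))
      = 15 * c.dx w * coeff (k + 1) (hat c.dx (N c (c.dx w) ^ a * T3 c (c.dx w))) := by
    rw [h5, ← map_mul, mul_assoc, coeff_C_mul, coeff_succ_X_mul]
  have e3 : coeff (k + 2) (5 * (X * hat c.dy (N c (c.dx w) ^ a * T3 c (c.dx w))))
      = 5 * coeff (k + 1) (hat c.dy (N c (c.dx w) ^ a * T3 c (c.dx w))) := by
    rw [h5, coeff_C_mul, coeff_succ_X_mul]
  rw [e1, e2, e3]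
  ring

/-- THE FLOW LEMMA -/
lemma Flow.main {w : A} (fl : Flow c w) (hw : w ∈ c.Z) (a k : ℕ) :
    fl.e * Vlin c w (G c w a k) - fl.de (G c w a k)
      = fl.e * (45 * a) * G c w (a - 1) (k + 1) := by
  have hu := c.dx_mem _ hw
  have d := d_id (hat c.dx) (hat fl.de) a (fl.P1_eqn hw) (N_x c hu) (fl.N_eqn hw)
  have h1 : fl.de (G c w a k)
      = coeff (k + 2) (X ^ 2 * hat fl.de (N c (c.dx w) ^ a * P1 c (c.dx w))) := by
    rw [coeff_X_pow_mul, coeff_hat, G]
  have e45 : (C fl.e * (45 * (a : A⟦X⟧)) : A⟦X⟧) = C (fl.e * (45 * a)) := by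
    rw [map_mul, map_mul, map_ofNat, map_natCast]
  rw [h1, d, map_sub, coeff_C_mul, e45, coeff_C_mul, coeff_succ_X_mul, Vlin_G c hw, G]
  ring

end Q235.BK
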