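import Pool.Agent.Q235.BK.Flow

/-!
# Dual numbers and the main theorem
-/

namespace Q235.BK

open PowerSeries

section functor

variable {A B : Type*} [CommRing A] [Algebra ℚ A] [CommRing B] [Algebra ℚ B]

/-- a morphism of calculi -/
structure Morph (c : Calculus A) (c' : Calculus B) where
  f : A →+* B
  dx : ∀ a, f (c.dx a) = c'.dx (f a)
  dy : ∀ a, f (c.dy a) = c'.dy (f a)
  J : ∀ a, f (c.J a) = c'.J (f a)
  x : f c.x = c'.x
  y : f c.y = c'.y

variable {c : Calculus A} {c' : Calculus B} (φ : Morph c c')

lemma Morph.alg (q : ℚ) : φ.f (algebraMap ℚ A q) = algebraMap ℚ B q := by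
  have h : (φ.f.comp (algebraMap ℚ A)) = algebraMap ℚ B := Subsingleton.elim _ _
  rw [← h]
  rfl

lemma Morph.Papp (u : A) (k : ℕ) : PowerSeries.map φ.f (Papp c u k) = Papp c' (φ.f u) k := by
  induction k with
  | zero => simp [BK.Papp]
  | succ k ih =>
    have h1 : ∀ m, φ.f (coeff m (BK.Papp c u k)) = coeff m (BK.Papp c' (φ.f u) k) := by
      intro m
      rw [← ih, coeff_map]
    have h2 : φ.f (coeff (k + 1) (BK.Papp c u k ^ 3)) = coeff (k + 1) (BK.Papp c' (φ.f u) k ^ 3) := by
      rw [← ih, ← map_pow, coeff_map]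
    rw [BK.Papp, BK.Papp, map_add, ih, map_mul, map_C, map_pow (PowerSeries.map φ.f) X, map_X,
      map_sub φ.f, map_mul φ.f, φ.alg, map_sub φ.f, φ.J, φ.dy, h1, h2, map_mul φ.f, h1]

lemma Morph.P (u : A) : PowerSeries.map φ.f (P c u) = P c' (φ.f u) := by
  ext k
  rw [coeff_map, BK.P, BK.P, coeff_mk, coeff_mk, ← φ.Papp, coeff_map]

lemma Morph.Th (F : A⟦X⟧) : PowerSeries.map φ.f (Th F) = Th (PowerSeries.map φ.f F) := by
  ext k
  rw [coeff_map, coeff_Th, coeff_Th, map_mul, coeff_map, map_natCast]

lemma Morph.P1 (u : A) : PowerSeries.map φ.f (P1 c u) = P1 c' (φ.f u) := by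
  rw [BK.P1, BK.P1, map_sub, map_mul, map_ofNat, φ.Th, φ.P]

lemma Morph.N (u : A) : PowerSeries.map φ.f (N c u) = N c' (φ.f u) := by
  have h : PowerSeries.map φ.f (PowerSeries.mk fun k => c.J (coeff (k + 1) (BK.P1 c u)))
      = PowerSeries.mk fun k => c'.J (coeff (k + 1) (BK.P1 c' (φ.f u))) := by
    ext k
    rw [coeff_map, coeff_mk, coeff_mk, φ.J, ← φ.P1, coeff_map]
  simp only [BK.N, map_add, map_mul, PowerSeries.map_C, PowerSeries.map_X, map_ofNat, φ.x, φ.y, h]

lemma Morph.G (w : A) (a k : ℕ) : φ.f (G c w a k) = G c' (φ.f w) a k := by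
  rw [BK.G, BK.G, ← φ.dx, ← φ.P1, ← φ.N, ← map_pow, ← map_mul, coeff_map]

end functor

section dual

variable {A : Type*} [CommRing A] [Algebra ℚ A]

open TrivSqZeroExt

/-- coefficientwise linear map -/
def dualLin (L : A →ₗ[ℚ] A) : DualNumber A →ₗ[ℚ] DualNumber A where
  toFun a := inl (L a.fst) + inr (L a.snd)
  map_add' a b := by ext <;> simp
  map_smul' q a := by ext <;> simp

@[simp] lemma fst_dualLin (L : A →ₗ[ℚ] A) (a : DualNumber A) : (dualLin L a).fst = L a.fst := by
  simp [dualLin]

@[simp] lemma snd_dualLin (L : A →ₗ[ℚ] A) (a : DualNumber A) : (dualLin L a).snd = L a.snd := by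
  simp [dualLin]

/-- coefficientwise derivation -/
def dualDer (δ : Derivation ℚ A A) : Derivation ℚ (DualNumber A) (DualNumber A) :=
  Derivation.mk' (dualLin (δ : A →ₗ[ℚ] A)) (by
    intro a b
    ext
    · simp
    · simp
      ring)

@[simp] lemma fst_dualDer (δ : Derivation ℚ A A) (a : DualNumber A) :
    (dualDer δ a).fst = δ a.fst := by
  simp [dualDer]

@[simp] lemma snd_dualDer (δ : Derivation ℚ A A) (a : DualNumber A) :
    (dualDer δ a).snd = δ a.snd := by
  simp [dualDer]

/-- the derivation `ε d/dε` -/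
def epsDer : Derivation ℚ (DualNumber A) (DualNumber A) :=
  Derivation.mk' (
    { toFun := fun a => inr a.snd
      map_add' := by intro a b; ext <;> simp
      map_smul' := by intro q a; ext <;> simp } : DualNumber A →ₗ[ℚ] DualNumber A) (by
    intro a b
    ext
    · simp
    · simp
      ring)

@[simp] lemma fst_epsDer (a : DualNumber A) : (epsDer a).fst = 0 := by
  simp [epsDer]

@[simp] lemma snd_epsDer (a : DualNumber A) : (epsDer a).snd = a.snd := by
  simp [epsDer]

/-- the calculus of dual numbers -/
def dual (c : Calculus A) : Calculus (DualNumber A) where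
  dx := dualDer c.dx
  dy := dualDer c.dy
  J := dualLin c.J
  x := inl c.x
  y := inl c.y
  Z :=
    { carrier := {a | a.fst ∈ c.Z ∧ a.snd ∈ c.Z}
      add_mem' := by
        intro a b ha hb
        exact ⟨by rw [fst_add]; exact c.Z.add_mem ha.1 hb.1,
          by rw [snd_add]; exact c.Z.add_mem ha.2 hb.2⟩
      zero_mem' := by simp
      smul_mem' := by
        intro a b hb
        refine ⟨by rw [smul_eq_mul, fst_mul]; exact c.Z.mul_mem_left _ hb.1, ?_⟩
        rw [smul_eq_mul, snd_mul]
        refine c.Z.add_mem (by rw [smul_eq_mul]; exact c.Z.mul_mem_left _ hb.2) ?_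
        rw [op_smul_eq_smul, smul_eq_mul]
        exact c.Z.mul_mem_right _ hb.1 }
  comm a := by ext <;> simp [c.comm]
  dx_x := by ext <;> simp [c.dx_x]
  dy_x := by ext <;> simp [c.dy_x]
  dx_y := by ext <;> simp [c.dx_y]
  dy_y := by ext <;> simp [c.dy_y]
  dx_mem a ha := ⟨by rw [fst_dualDer]; exact c.dx_mem _ ha.1,
    by rw [snd_dualDer]; exact c.dx_mem _ ha.2⟩
  dy_mem a ha := ⟨by rw [fst_dualDer]; exact c.dy_mem _ ha.1,
    by rw [snd_dualDer]; exact c.dy_mem _ ha.2⟩
  J_mem a ha := ⟨by rw [fst_dualLin]; exact c.J_mem _ ha.1,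
    by rw [snd_dualLin]; exact c.J_mem _ ha.2⟩
  dx_J a ha := by
    ext
    · rw [fst_dualDer, fst_dualLin, c.dx_J _ ha.1]
    · rw [snd_dualDer, snd_dualLin, c.dx_J _ ha.2]
  J_dx a ha := by
    ext
    · rw [fst_dualLin, fst_dualDer, c.J_dx _ ha.1]
    · rw [snd_dualLin, snd_dualDer, c.J_dx _ ha.2]
  J_monomial i j := by
    have h : ∀ i j : ℕ, (inl c.x ^ i * inl c.y ^ j : DualNumber A) = inl (c.x ^ i * c.y ^ j) := by
      intro i j
      rw [inl_mul, inl_pow, inl_pow]
    rw [h, h]
    ext
    · rw [fst_dualLin, fst_inl, fst_smul, fst_inl, c.J_monomial]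
    · rw [snd_dualLin, snd_inl, snd_smul, snd_inl, map_zero, smul_zero]

/-- setting `ε = 0` -/
def dualMorph (c : Calculus A) : Morph (dual c) c where
  f := (fstHom A A A : DualNumber A →+* A)
  dx a := by simp [dual]
  dy a := by simp [dual]
  J a := by simp [dual]
  x := by simp [dual]
  y := by simp [dual]

/-- values at `w + ε h` -/
lemma eval_dual (c : Calculus A) (w : A) (h f : Expression) :
    Expression.eval (dual c) (inl w + inr (Expression.eval c w h)) f
      = inl (Expression.eval c w f) + inr (Expression.eval c w (Expression.frechet h f)) := by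
  induction f with
  | const q =>
    simp only [Expression.eval, Expression.frechet, TrivSqZeroExt.algebraMap_eq_inl', map_zero,
      inr_zero, add_zero]
  | X => simp [Expression.eval, Expression.frechet, dual]
  | Y => simp [Expression.eval, Expression.frechet, dual]
  | W => simp [Expression.eval, Expression.frechet]
  | add f g hf hg =>
    simp only [Expression.eval, Expression.frechet, hf, hg]
    ext <;> simp
  | mul f g hf hg =>
    simp only [Expression.eval, Expression.frechet, hf, hg]
    ext
    · simp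
    · simp
      ring
  | dx f hf =>
    simp only [Expression.eval, Expression.frechet, hf]
    ext <;> simp [dual]
  | dy f hf =>
    simp only [Expression.eval, Expression.frechet, hf]
    ext <;> simp [dual]
  | J f hf =>
    simp only [Expression.eval, Expression.frechet, hf]
    ext <;> simp [dual]

/-- the flow of `V` in the dual numbers -/
def dualFlow (c : Calculus A) (w : A) : Flow (dual c) (inl w + inr (Vval c w)) where
  de := epsDer
  e := inr 1
  cx a := by ext <;> simp [dual]
  cy a := by ext <;> simp [dual]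
  dxe := by ext <;> simp [dual]
  dye := by ext <;> simp [dual]
  de_x := by ext <;> simp [dual]
  de_y := by ext <;> simp [dual]
  mem a ha := ⟨by rw [fst_epsDer]; exact c.Z.zero_mem, by rw [snd_epsDer]; exact ha.2⟩
  hw := by
    have h : (Vval (dual c) (inl w + inr (Vval c w))).fst = Vval c w := by
      have h15 : ((15 : DualNumber A)).fst = 15 := rfl
      have h5 : ((5 : DualNumber A)).fst = 5 := rfl
      simp [Vval, dual, h15, h5]
    ext
    · simp
    · rw [snd_epsDer, snd_mul, h]
      simp

end dual

section final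

open TrivSqZeroExt

/-- the numerical coefficients -/
def coef (n : ℕ) : ℕ → ℚ
  | 0 => 1 / 3 ^ n
  | k + 1 => coef n k * (45 * ((n - k : ℕ) : ℚ))

variable {A : Type*} [CommRing A] [Algebra ℚ A]

lemma eval_V (c : Calculus A) (w : A) : Expression.eval c w Expression.V = Vval c w := by
  simp only [Expression.V, Expression.eval, Vval, map_neg, map_ofNat]
  ring

lemma eval_bracket (c : Calculus A) (w : A) (f : Expression) :
    Expression.eval c w (Expression.bracket f)
      = Vlin c w (Expression.eval c w f)
        - Expression.eval c w (Expression.frechet Expression.V f) := by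
  simp only [Expression.bracket, Expression.V, Expression.eval, Expression.frechet, Vlin, map_neg,
    map_ofNat, map_one, map_zero]
  ring

lemma Vlin_smul (c : Calculus A) (w f : A) (q : ℚ) : Vlin c w (q • f) = q • Vlin c w f := by
  simp only [Vlin, Derivation.map_smul, map_smul, smul_add, smul_sub, mul_smul_comm,
    smul_mul_assoc, mul_add]

lemma eval_ypow (c : Calculus A) (w : A) (n : ℕ) :
    Expression.eval c w (Expression.ypow n) = c.y ^ n := by
  induction n with
  | zero => simp [Expression.ypow, Expression.eval]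
  | succ n ih => rw [Expression.ypow, Expression.eval, ih, Expression.eval, pow_succ]

lemma G_zero (c : Calculus A) (w : A) (n : ℕ) : G c w n 0 = (3 * c.y) ^ n := by
  have h1 := coeff_N_zero c (c.dx w)
  have h2 := coeff_P1_zero c (c.dx w)
  rw [coeff_zero_eq_constantCoeff_apply] at h1 h2
  rw [G, coeff_zero_eq_constantCoeff_apply, map_mul, map_pow, h1, h2, mul_one]

lemma fst_Vlin (c : Calculus A) (w h : A) (f : DualNumber A) :
    (Vlin (dual c) (inl w + inr h) f).fst = Vlin c w f.fst := by
  have h15 : ((15 : DualNumber A)).fst = 15 := rfl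
  have h45 : ((45 : DualNumber A)).fst = 45 := rfl
  have h5 : ((5 : DualNumber A)).fst = 5 := rfl
  simp [Vlin, dual, h15, h45, h5]

end final

universe v

/-- the closed formula for the iterated commutators -/
theorem closed_form (n k : ℕ) : ∀ (A : Type v) [CommRing A] [Algebra ℚ A] (c : Calculus A) (w : A),
    w ∈ c.Z → Expression.eval c w (Expression.bracket^[k] (Expression.ypow n))
      = coef n k • G c w (n - k) k := by
  induction k with
  | zero =>
    intro A _ _ c w hw
    rw [Function.iterate_zero, id, eval_ypow, Nat.sub_zero, G_zero, coef, mul_pow,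
      Algebra.smul_def, ← mul_assoc]
    have h3 : algebraMap ℚ A (1 / 3 ^ n) * 3 ^ n = 1 := by
      have : (3 : A) ^ n = algebraMap ℚ A (3 ^ n) := by rw [map_pow, map_ofNat]
      rw [this, ← map_mul, one_div, inv_mul_cancel₀ (by positivity), map_one]
    rw [h3, one_mul]
  | succ k ih =>
    intro A _ _ c w hw
    rw [Function.iterate_succ_apply', eval_bracket]
    set F := Expression.bracket^[k] (Expression.ypow n) with hF
    have hV : Vval c w ∈ c.Z := by
      unfold Vval
      have hu := c.dx_mem _ hw
      exact c.Z.add_mem (c.Z.sub_mem (c.Z.mul_mem_left _ (c.Z.mul_mem_right _ hu))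
        (c.Z.mul_mem_left _ (c.Z.mul_mem_right _ hu)))
        (c.Z.mul_mem_left _ (c.J_mem _ (c.dy_mem _ (c.dy_mem _ hw))))
    have hw2 : (TrivSqZeroExt.inl w + TrivSqZeroExt.inr (Vval c w) : DualNumber A)
        ∈ (dual c).Z := by
      refine ⟨?_, ?_⟩
      · simpa using hw
      · simpa using hV
    have h1 := ih (DualNumber A) (dual c)
      (TrivSqZeroExt.inl w + TrivSqZeroExt.inr (Vval c w)) hw2
    have h2 := Flow.main (dual c) (dualFlow c w) hw2 (n - k) k
    have h3 := eval_dual c w Expression.V F
    rw [eval_V] at h3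
    -- multiply by the coefficient
    have h4 : (dualFlow c w).e * Vlin (dual c)
          (TrivSqZeroExt.inl w + TrivSqZeroExt.inr (Vval c w))
          (Expression.eval (dual c) (TrivSqZeroExt.inl w + TrivSqZeroExt.inr (Vval c w)) F)
        - (dualFlow c w).de
          (Expression.eval (dual c) (TrivSqZeroExt.inl w + TrivSqZeroExt.inr (Vval c w)) F)
        = coef n k • ((dualFlow c w).e * (45 * ((n - k : ℕ) : DualNumber A))
          * G (dual c) (TrivSqZeroExt.inl w + TrivSqZeroExt.inr (Vval c w)) (n - k - 1) (k + 1)) := by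
      rw [← h2, h1, Vlin_smul, Derivation.map_smul, mul_smul_comm, smul_sub]
    have h5 := congrArg TrivSqZeroExt.snd h4
    have h6 : (G (dual c) (TrivSqZeroExt.inl w + TrivSqZeroExt.inr (Vval c w))
        (n - k - 1) (k + 1)).fst = G c w (n - k - 1) (k + 1) := by
      have := (dualMorph c).G (TrivSqZeroExt.inl w + TrivSqZeroExt.inr (Vval c w))
        (n - k - 1) (k + 1)
      simpa [dualMorph] using this
    have h45 : ((45 : DualNumber A)).fst = 45 := rfl
    rw [h3] at h5
    simp only [dualFlow, TrivSqZeroExt.snd_sub, snd_epsDer, TrivSqZeroExt.snd_smul,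
      TrivSqZeroExt.snd_mul, TrivSqZeroExt.fst_inr, TrivSqZeroExt.snd_inr, zero_add,
      TrivSqZeroExt.snd_add, TrivSqZeroExt.snd_inl, TrivSqZeroExt.fst_mul, zero_mul,
      fst_Vlin, h6, op_smul_eq_smul, smul_eq_mul, TrivSqZeroExt.fst_add, TrivSqZeroExt.fst_inl,
      add_zero, mul_one, h45, TrivSqZeroExt.fst_natCast] at h5
    rw [h5, coef, ← Nat.sub_sub, Algebra.smul_def, Algebra.smul_def, map_mul, map_mul, map_ofNat,
      map_natCast]
    ring

/-- the commutator of order `n + 1` vanishes -/
theorem vanish (n : ℕ) (A : Type v) [CommRing A] [Algebra ℚ A] (c : Calculus A) (w : A)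
    (hw : w ∈ c.Z) :
    Expression.eval c w (Expression.bracket^[n + 1] (Expression.ypow n)) = 0 := by
  rw [closed_form n (n + 1) A c w hw, coef, Nat.sub_self]
  simp

/-- the coefficients are not zero -/
lemma coef_ne_zero (n k : ℕ) (h : k ≤ n) : coef n k ≠ 0 := by
  induction k with
  | zero => rw [coef]; positivity
  | succ k ih =>
    rw [coef]
    have h1 : ((n - k : ℕ) : ℚ) ≠ 0 := by
      have : n - k ≠ 0 := by omega
      exact_mod_cast this
    exact mul_ne_zero (ih (by omega)) (mul_ne_zero (by norm_num) h1)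

end Q235.BK
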