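import Pool.Agent.Q235.BK.Main

/-!
# A concrete calculus: formal series `∑ P_k(x,y) e^{kx}`
-/

namespace Q235.BK

open PowerSeries

/-- the polynomials in `x = X 0` and `y = X 1` -/
abbrev R2 : Type := MvPolynomial (Fin 2) ℚ

noncomputable def px : Derivation ℚ R2 R2 := MvPolynomial.pderiv 0
noncomputable def py : Derivation ℚ R2 R2 := MvPolynomial.pderiv 1

lemma px_py (f : R2) : px (py f) = py (px f) := by
  have h : ⁅px, py⁆ = 0 := by
    apply MvPolynomial.derivation_ext
    intro i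
    rw [Derivation.commutator_apply]
    fin_cases i <;> simp [px, py, MvPolynomial.pderiv_X]
  have h2 := congrArg (fun D : Derivation ℚ R2 R2 => D f) h
  simp only [Derivation.commutator_apply, Derivation.coe_zero, Pi.zero_apply] at h2
  exact sub_eq_zero.mp h2

lemma px_nilp (f : R2) : ∃ N : ℕ, ∀ M, N ≤ M → px^[M] f = 0 := by
  induction f using MvPolynomial.induction_on with
  | C a =>
    refine ⟨1, fun M hM => ?_⟩
    obtain ⟨M, rfl⟩ := Nat.exists_eq_add_of_le hM
    rw [add_comm, Function.iterate_succ_apply]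
    have : px (MvPolynomial.C a) = 0 := MvPolynomial.pderiv_C
    rw [this]
    exact Function.iterate_fixed (map_zero px) M
  | add p q hp hq =>
    obtain ⟨N1, h1⟩ := hp
    obtain ⟨N2, h2⟩ := hq
    refine ⟨max N1 N2, fun M hM => ?_⟩
    have : px^[M] (p + q) = px^[M] p + px^[M] q := by
      have := iterate_map_add px M p q
      exact this
    rw [this, h1 M (le_trans (le_max_left _ _) hM), h2 M (le_trans (le_max_right _ _) hM), add_zero]
  | mul_X p i hp =>
    obtain ⟨N1, h1⟩ := hp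
    have key : ∀ M : ℕ, px^[M] (p * MvPolynomial.X i)
        = px^[M] p * MvPolynomial.X i + M • (px^[M - 1] p * px (MvPolynomial.X i)) := by
      intro M
      have hX : px (px (MvPolynomial.X i)) = 0 := by
        fin_cases i <;> simp [px, MvPolynomial.pderiv_X]
      induction M with
      | zero => simp
      | succ M ih =>
        rw [Function.iterate_succ_apply', ih, map_add, Derivation.leibniz, map_nsmul,
          Derivation.leibniz, hX, smul_zero, zero_add]
        rw [← Function.iterate_succ_apply' px M p]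
        cases M with
        | zero => simp; ring
        | succ M =>
          rw [Nat.add_sub_cancel, Nat.add_sub_cancel, ← Function.iterate_succ_apply' px M p]
          simp only [smul_eq_mul, nsmul_eq_mul]
          push_cast
          ring
    refine ⟨N1 + 1, fun M hM => ?_⟩
    rw [key, h1 M (by omega), h1 (M - 1) (by omega)]
    simp

/-- `k + ∂_x` -/
noncomputable def kpx (k : ℕ) : R2 →ₗ[ℚ] R2 := (k : ℚ) • LinearMap.id + (px : R2 →ₗ[ℚ] R2)

lemma kpx_apply (k : ℕ) (f : R2) : kpx k f = (k : ℚ) • f + px f := by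
  simp [kpx]

lemma kpx_inj (k : ℕ) (hk : k ≠ 0) : Function.Injective (kpx k) := by
  rw [← LinearMap.ker_eq_bot, LinearMap.ker_eq_bot']
  intro f hf
  rw [kpx_apply] at hf
  have h1 : px f = (-(k : ℚ)) • f := by
    rw [neg_smul]
    exact eq_neg_of_add_eq_zero_right hf
  have h2 : ∀ M : ℕ, px^[M] f = (-(k : ℚ)) ^ M • f := by
    intro M
    induction M with
    | zero => simp
    | succ M ih => rw [Function.iterate_succ_apply', ih, Derivation.map_smul, h1, smul_smul, pow_succ]
  obtain ⟨N, hN⟩ := px_nilp f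
  have h3 := hN N le_rfl
  rw [h2] at h3
  have h4 : (-(k : ℚ)) ^ N ≠ 0 := pow_ne_zero _ (neg_ne_zero.mpr (by exact_mod_cast hk))
  exact (smul_eq_zero.mp h3).resolve_left h4

lemma kpx_surj (k : ℕ) (hk : k ≠ 0) : Function.Surjective (kpx k) := by
  have key : ∀ N : ℕ, ∀ f : R2, px^[N] f = 0 → f ∈ LinearMap.range (kpx k) := by
    intro N
    induction N with
    | zero =>
      intro f hf
      rw [Function.iterate_zero, id] at hf
      rw [hf]
      exact Submodule.zero_mem _
    | succ N ih =>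
      intro f hf
      rw [Function.iterate_succ_apply] at hf
      have h1 := ih _ hf
      have hk' : (k : ℚ) ≠ 0 := by exact_mod_cast hk
      have h2 : f = kpx k ((k : ℚ)⁻¹ • f) - (k : ℚ)⁻¹ • px f := by
        rw [kpx_apply, smul_smul, mul_inv_cancel₀ hk', one_smul, Derivation.map_smul]
        abel
      rw [h2]
      exact Submodule.sub_mem _ ⟨_, rfl⟩ (Submodule.smul_mem _ _ h1)
  intro f
  obtain ⟨N, hN⟩ := px_nilp f
  exact key N f (hN N le_rfl)

/-- the inverse of `k + ∂_x` for `k ≥ 1` -/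
noncomputable def Lk (k : ℕ) (hk : k ≠ 0) : R2 →ₗ[ℚ] R2 :=
  (LinearEquiv.ofBijective (kpx k) ⟨kpx_inj k hk, kpx_surj k hk⟩).symm.toLinearMap

lemma kpx_Lk (k : ℕ) (hk : k ≠ 0) (f : R2) : kpx k (Lk k hk f) = f := by
  exact (LinearEquiv.ofBijective (kpx k) ⟨kpx_inj k hk, kpx_surj k hk⟩).apply_symm_apply f

lemma Lk_kpx (k : ℕ) (hk : k ≠ 0) (f : R2) : Lk k hk (kpx k f) = f := by
  exact (LinearEquiv.ofBijective (kpx k) ⟨kpx_inj k hk, kpx_surj k hk⟩).symm_apply_apply f

/-- integration in `x` from `0` on polynomials -/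
noncomputable def I0 : R2 →ₗ[ℚ] R2 :=
  (MvPolynomial.basisMonomials (Fin 2) ℚ).constr ℚ
    (fun s => (1 / ((s 0 : ℚ) + 1)) •
      ((MvPolynomial.X 0 : R2) ^ (s 0 + 1) * (MvPolynomial.X 1 : R2) ^ (s 1)))

lemma I0_monomial (i j : ℕ) : I0 ((MvPolynomial.X 0 : R2) ^ i * (MvPolynomial.X 1 : R2) ^ j)
    = (1 / ((i : ℚ) + 1)) • ((MvPolynomial.X 0 : R2) ^ (i + 1) * (MvPolynomial.X 1 : R2) ^ j) := by
  have h : ((MvPolynomial.X 0 : R2) ^ i * (MvPolynomial.X 1 : R2) ^ j)
      = MvPolynomial.basisMonomials (Fin 2) ℚ (Finsupp.single 0 i + Finsupp.single 1 j) := by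
    rw [MvPolynomial.coe_basisMonomials, MvPolynomial.X_pow_eq_monomial,
      MvPolynomial.X_pow_eq_monomial, MvPolynomial.monomial_mul, one_mul]
  rw [h, I0, Module.Basis.constr_basis]
  simp

/-- the operator `J` of the model -/
noncomputable def Jm : R2⟦X⟧ →ₗ[ℚ] R2⟦X⟧ where
  toFun F := PowerSeries.mk fun k => if h : k = 0 then I0 (coeff 0 F) else Lk k h (coeff k F)
  map_add' F G := by
    ext k : 1
    simp only [coeff_mk, map_add]
    split_ifs <;> simp
  map_smul' q F := by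
    ext k : 1
    by_cases hk : k = 0
    · subst hk
      simp only [coeff_mk, RingHom.id_apply, dif_pos]
      have h1 : coeff 0 (q • F) = q • coeff 0 F := rfl
      have h2 : ∀ G : R2⟦X⟧, coeff 0 (q • G) = q • coeff 0 G := fun G => rfl
      rw [h1, h2, map_smul, coeff_mk, dif_pos rfl]
    · have h2 : ∀ G : R2⟦X⟧, coeff k (q • G) = q • coeff k G := fun G => rfl
      simp only [coeff_mk, RingHom.id_apply, dif_neg hk]
      rw [h2, h2, map_smul, coeff_mk, dif_neg hk]

lemma coeff_Jm (F : R2⟦X⟧) (k : ℕ) (hk : k ≠ 0) : coeff k (Jm F) = Lk k hk (coeff k F) := by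
  simp [Jm, hk]

lemma coeff_Jm_zero (F : R2⟦X⟧) : coeff 0 (Jm F) = I0 (coeff 0 F) := by
  change coeff 0 (PowerSeries.mk fun k => if h : k = 0 then I0 (coeff 0 F) else Lk k h (coeff k F))
    = _
  rw [coeff_mk, dif_pos rfl]

/-- `∂_x` of the model, with `e^x` the variable of the series -/
noncomputable def dxm : Derivation ℚ R2⟦X⟧ R2⟦X⟧ := hat px + Th

lemma coeff_dxm (F : R2⟦X⟧) (k : ℕ) : coeff k (dxm F) = kpx k (coeff k F) := by
  rw [dxm, Derivation.add_apply, map_add, coeff_hat, coeff_Th, kpx_apply, add_comm,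
    Nat.cast_smul_eq_nsmul ℚ, nsmul_eq_mul]

/-- the series without constant term -/
noncomputable def Zm : Ideal R2⟦X⟧ := RingHom.ker (constantCoeff (R := R2))

lemma mem_Zm (F : R2⟦X⟧) : F ∈ Zm ↔ coeff 0 F = 0 := by
  rw [Zm, RingHom.mem_ker, coeff_zero_eq_constantCoeff_apply]

/-- the concrete calculus of the formal series `∑ P_k(x,y) e^{kx}` -/
noncomputable def model : Calculus R2⟦X⟧ where
  dx := dxm
  dy := hat py
  J := Jm
  x := C (MvPolynomial.X 0)
  y := C (MvPolynomial.X 1)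
  Z := Zm
  comm a := by
    ext k : 1
    rw [coeff_dxm, coeff_hat, coeff_hat, coeff_dxm, kpx_apply, kpx_apply, map_add,
      Derivation.map_smul, px_py]
  dx_x := by
    rw [dxm, Derivation.add_apply, hat_C, Th_C, add_zero, px, MvPolynomial.pderiv_X]
    simp
  dy_x := by
    rw [hat_C, py, MvPolynomial.pderiv_X]
    simp
  dx_y := by
    rw [dxm, Derivation.add_apply, hat_C, Th_C, add_zero, px, MvPolynomial.pderiv_X]
    simp
  dy_y := by
    rw [hat_C, py, MvPolynomial.pderiv_X]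
    simp
  dx_mem a ha := by
    rw [mem_Zm] at ha ⊢
    rw [coeff_dxm, ha, map_zero]
  dy_mem a ha := by
    rw [mem_Zm] at ha ⊢
    rw [coeff_hat, ha, map_zero]
  J_mem a ha := by
    rw [mem_Zm] at ha ⊢
    rw [coeff_Jm_zero, ha, map_zero]
  dx_J a ha := by
    rw [mem_Zm] at ha
    ext k : 1
    rw [coeff_dxm]
    by_cases h : k = 0
    · subst h
      rw [coeff_Jm_zero, ha, map_zero, map_zero]
    · rw [coeff_Jm _ _ h, kpx_Lk]
  J_dx a ha := by
    rw [mem_Zm] at ha
    ext k : 1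
    by_cases h : k = 0
    · subst h
      rw [coeff_Jm_zero, coeff_dxm, ha, map_zero, map_zero]
    · rw [coeff_Jm _ _ h, coeff_dxm, Lk_kpx]
  J_monomial i j := by
    have h : ∀ i j : ℕ, (C (MvPolynomial.X 0 : R2) ^ i * C (MvPolynomial.X 1 : R2) ^ j : R2⟦X⟧)
        = C ((MvPolynomial.X 0 : R2) ^ i * (MvPolynomial.X 1 : R2) ^ j) := by
      intro i j
      rw [map_mul, map_pow, map_pow]
    rw [h, h]
    ext k : 1
    by_cases hk : k = 0
    · subst hk
      rw [coeff_Jm_zero, coeff_zero_C, I0_monomial]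
      simp
    · rw [coeff_Jm _ _ hk, coeff_C, if_neg hk, map_zero]
      have : coeff k ((1 / ((i : ℚ) + 1)) •
          (C ((MvPolynomial.X 0 : R2) ^ (i + 1) * (MvPolynomial.X 1 : R2) ^ j) : R2⟦X⟧))
          = (1 / ((i : ℚ) + 1)) •
            coeff k (C ((MvPolynomial.X 0 : R2) ^ (i + 1) * (MvPolynomial.X 1 : R2) ^ j)) := rfl
      rw [this, coeff_C, if_neg hk, smul_zero]

/-! ### the commutator of order `n` does not vanish -/

/-- the series of order at least two in `e^x` -/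
noncomputable def Z2 : Ideal R2⟦X⟧ where
  carrier := {F | coeff 0 F = 0 ∧ coeff 1 F = 0}
  add_mem' := by
    intro a b ha hb
    exact ⟨by rw [map_add, ha.1, hb.1, add_zero], by rw [map_add, ha.2, hb.2, add_zero]⟩
  zero_mem' := by simp
  smul_mem' := by
    intro a b hb
    have h : X ^ 2 ∣ b := by
      rw [X_pow_dvd_iff]
      intro m hm
      interval_cases m
      · exact hb.1
      · exact hb.2
    obtain ⟨d, rfl⟩ := h
    rw [smul_eq_mul]
    have e : a * (X ^ 2 * d) = X ^ 2 * (a * d) := by ring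
    rw [e]
    refine ⟨?_, ?_⟩
    · rw [coeff_X_pow_mul', if_neg (by norm_num)]
    · rw [coeff_X_pow_mul', if_neg (by norm_num)]

lemma mul_mem_Z2 {a b : R2⟦X⟧} (ha : a ∈ Zm) (hb : b ∈ Zm) : a * b ∈ Z2 := by
  rw [mem_Zm] at ha hb
  have h1 : X ∣ a := X_dvd_iff.mpr (by rwa [coeff_zero_eq_constantCoeff_apply] at ha)
  have h2 : X ∣ b := X_dvd_iff.mpr (by rwa [coeff_zero_eq_constantCoeff_apply] at hb)
  obtain ⟨a, rfl⟩ := h1
  obtain ⟨b, rfl⟩ := h2
  have e : X * a * (X * b) = X ^ 2 * (a * b) := by ring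
  rw [e]
  refine ⟨?_, ?_⟩
  · rw [coeff_X_pow_mul', if_neg (by norm_num)]
  · rw [coeff_X_pow_mul', if_neg (by norm_num)]

lemma mul_mem_ZS2 {F G : R2⟦X⟧⟦X⟧} (hF : F ∈ ZS Zm) (hG : G ∈ ZS Zm) : F * G ∈ ZS Z2 := by
  rw [mem_ZS] at hF hG ⊢
  intro k
  rw [coeff_mul]
  exact Ideal.sum_mem _ fun p _ => mul_mem_Z2 (hF _) (hG _)

/-- the linear part of the recursion of the wave function -/
lemma coeff_one_P (u : R2⟦X⟧) (hu : u ∈ Zm) (k : ℕ) (hk : 1 ≤ k) :
    coeff 1 (coeff (k + 1) (P model u))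
      = (1 / 3 : ℚ) • Lk 1 one_ne_zero (py (coeff 1 (coeff k (P model u)))) := by
  have h1 : Papp model u k - 1 ∈ ZS Zm := Papp_sub_one_mem model u hu k
  have h2 : coeff (k + 1) (Papp model u k ^ 3) ∈ Z2 := by
    have e : Papp model u k ^ 3 = 1 + 3 * (Papp model u k - 1)
        + (Papp model u k - 1) * ((Papp model u k - 1) * (Papp model u k + 2)) := by ring
    have h3 := mem_ZS.mp (mul_mem_ZS2 h1 (Ideal.mul_mem_right (Papp model u k + 2) _ h1)) (k + 1)
    have e3 : (3 : R2⟦X⟧⟦X⟧) = C 3 := (map_ofNat C 3).symm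
    rw [e, map_add, map_add, coeff_one, if_neg (by omega), e3, coeff_C_mul, map_sub,
      coeff_Papp_of_lt model u k (k + 1) (by omega), coeff_one, if_neg (by omega), sub_zero,
      mul_zero, zero_add, zero_add]
    exact h3
  have h4 : coeff k (P model u) ∈ Zm := by
    have := mem_ZS.mp (P_sub_one_mem model u hu) k
    rwa [map_sub, coeff_one, if_neg (by omega), sub_zero] at this
  have h5 : u * coeff k (P model u) ∈ Z2 := mul_mem_Z2 hu h4
  have e13 : algebraMap ℚ R2⟦X⟧ (1 / 3) * (model.J (model.dy (coeff k (P model u)))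
      - coeff (k + 1) (Papp model u k ^ 3))
      = (1 / 3 : ℚ) • (model.J (model.dy (coeff k (P model u)))
      - coeff (k + 1) (Papp model u k ^ 3)) := (Algebra.smul_def _ _).symm
  have hs : ∀ (q : ℚ) (G : R2⟦X⟧), coeff 1 (q • G) = q • coeff 1 G := fun q G => rfl
  rw [coeff_P_succ, map_sub, h5.2, sub_zero, e13, hs, map_sub, h2.2, sub_zero]
  congr 1
  change coeff 1 (Jm (hat py (coeff k (P model u)))) = _
  rw [coeff_Jm _ _ one_ne_zero, coeff_hat]

lemma Lk_pow (j : ℕ) (q : ℚ) : Lk 1 one_ne_zero (q • (MvPolynomial.X 1 : R2) ^ j)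
    = q • (MvPolynomial.X 1 : R2) ^ j := by
  apply kpx_inj 1 one_ne_zero
  rw [kpx_Lk, kpx_apply, Derivation.map_smul, Derivation.leibniz_pow, px, MvPolynomial.pderiv_X]
  simp

lemma py_pow (j : ℕ) (q : ℚ) : py (q • (MvPolynomial.X 1 : R2) ^ j)
    = (q * j) • (MvPolynomial.X 1 : R2) ^ (j - 1) := by
  rw [Derivation.map_smul, Derivation.leibniz_pow, py, MvPolynomial.pderiv_X, mul_smul,
    Nat.cast_smul_eq_nsmul ℚ]
  simp

/-- the test function `w = y^m e^x` -/
noncomputable def wtest (m : ℕ) : R2⟦X⟧ := C ((MvPolynomial.X 1 : R2) ^ m) * X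

lemma wtest_mem (m : ℕ) : wtest m ∈ Zm := by
  rw [mem_Zm, wtest, coeff_zero_eq_constantCoeff_apply]
  simp

lemma dx_wtest (m : ℕ) : dxm (wtest m) = wtest m := by
  rw [wtest, dxm, Derivation.add_apply, Derivation.leibniz, Derivation.leibniz, hat_X, hat_C, Th_X,
    Th_C, Derivation.leibniz_pow, px, MvPolynomial.pderiv_X]
  simp

lemma coeff_one_P_wtest (m k : ℕ) (hk : k ≤ m) :
    ∃ q : ℚ, q ≠ 0 ∧ coeff 1 (coeff (k + 1) (P model (wtest m)))
      = q • (MvPolynomial.X 1 : R2) ^ (m - k) := by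
  induction k with
  | zero =>
    refine ⟨-1, by norm_num, ?_⟩
    rw [coeff_P_succ, coeff_P_zero, Papp, one_pow, coeff_one, if_neg (by norm_num),
      Derivation.map_one_eq_zero, map_zero, sub_zero, mul_zero, zero_sub, mul_one, map_neg, wtest]
    rw [coeff_C_mul, coeff_one_X]
    simp
  | succ k ih =>
    obtain ⟨q, hq, h⟩ := ih (by omega)
    refine ⟨(1 / 3) * (q * (m - k : ℕ)), ?_, ?_⟩
    · have : ((m - k : ℕ) : ℚ) ≠ 0 := by
        have : m - k ≠ 0 := by omega
        exact_mod_cast this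
      positivity
    · rw [coeff_one_P _ (wtest_mem m) (k + 1) (by omega), h, py_pow, Lk_pow, smul_smul,
        Nat.sub_sub]

/-- In the model the commutator of order `n` of `y^n` does not vanish. -/
theorem nonvanish (n : ℕ) : ∃ w ∈ model.Z,
    Expression.eval model w (Expression.bracket^[n] (Expression.ypow n)) ≠ 0 := by
  refine ⟨wtest n, wtest_mem n, ?_⟩
  rw [closed_form n n _ model (wtest n) (wtest_mem n), Nat.sub_self]
  intro h
  have h1 := (smul_eq_zero.mp h).resolve_left (coef_ne_zero n n le_rfl)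
  rw [G, pow_zero, one_mul] at h1
  have hu : model.dx (wtest n) = wtest n := dx_wtest n
  rw [hu, P1, map_sub] at h1
  have e2 : (2 : R2⟦X⟧⟦X⟧) = C 2 := (map_ofNat C 2).symm
  rw [e2, coeff_C_mul, coeff_Th] at h1
  cases n with
  | zero =>
    rw [coeff_P_zero] at h1
    simp at h1
  | succ n =>
    obtain ⟨q, hq, hc⟩ := coeff_one_P_wtest (n + 1) n (by omega)
    have h2 : (1 - 2 * ((n + 1 : ℕ) : R2⟦X⟧)) * coeff (n + 1) (P model (wtest (n + 1))) = 0 := by
      rw [← h1]; ring
    have e3 : (1 - 2 * ((n + 1 : ℕ) : R2⟦X⟧))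
        = algebraMap ℚ R2⟦X⟧ (1 - 2 * ((n + 1 : ℕ) : ℚ)) := by
      rw [map_sub, map_mul, map_one, map_ofNat, map_natCast]
    rw [e3, ← Algebra.smul_def] at h2
    have h3 : (1 - 2 * ((n + 1 : ℕ) : ℚ)) ≠ 0 := by
      push_cast
      have : (0 : ℚ) ≤ n := by positivity
      intro h; linarith
    have h4 := (smul_eq_zero.mp h2).resolve_left h3
    rw [h4, map_zero] at hc
    have h5 := (smul_eq_zero.mp hc.symm).resolve_left hq
    exact pow_ne_zero _ (MvPolynomial.X_ne_zero 1) h5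

end Q235.BK
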