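import Pool.Agent.Q235.BK.Defs

/-!
# Coefficientwise derivations of power series and the wave function recursion
-/

namespace Q235.BK

open PowerSeries

variable {A : Type*} [CommRing A] [Algebra ℚ A]

/-- coefficientwise extension of a derivation -/
noncomputable def hat (δ : Derivation ℚ A A) : Derivation ℚ A⟦X⟧ A⟦X⟧ :=
  Derivation.mk' (
    { toFun := fun F => PowerSeries.mk fun k => δ (coeff k F)
      map_add' := by intro F G; ext k; simp
      map_smul' := by
        intro q F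
        ext k
        simp } : A⟦X⟧ →ₗ[ℚ] A⟦X⟧) (by
    intro F G
    ext k
    simp only [LinearMap.coe_mk, AddHom.coe_mk, coeff_mk, coeff_mul, map_sum, Derivation.leibniz,
      smul_eq_mul, map_add, Finset.sum_add_distrib]
    congr 1
    rw [← Finset.Nat.sum_antidiagonal_swap]
    simp)

@[simp] lemma coeff_hat (δ : Derivation ℚ A A) (F : A⟦X⟧) (k : ℕ) :
    coeff k (hat δ F) = δ (coeff k F) := by
  simp [hat]

lemma hat_X (δ : Derivation ℚ A A) : hat δ (X : A⟦X⟧) = 0 := by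
  ext k
  rw [coeff_hat, coeff_X]
  split_ifs <;> simp

lemma hat_C (δ : Derivation ℚ A A) (a : A) : hat δ (C a : A⟦X⟧) = C (δ a) := by
  ext k
  rw [coeff_hat, coeff_C, coeff_C]
  split_ifs <;> simp

/-- The Euler operator. -/
noncomputable def Th : Derivation ℚ A⟦X⟧ A⟦X⟧ :=
  (X : A⟦X⟧) • (Derivation.restrictScalars ℚ (PowerSeries.derivative A))

lemma coeff_Th (F : A⟦X⟧) (k : ℕ) : coeff k (Th F) = (k : A) * coeff k F := by
  cases k with
  | zero => simp [Th]
  | succ k =>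
    have h : Th F = X * PowerSeries.derivative A F := rfl
    rw [h, coeff_succ_X_mul, coeff_derivative]
    push_cast
    ring

lemma Th_X : Th (X : A⟦X⟧) = X := by
  ext k
  rw [coeff_Th, coeff_X]
  split_ifs with h
  · subst h; simp
  · simp

lemma Th_C (a : A) : Th (C a : A⟦X⟧) = 0 := by
  ext k
  rw [coeff_Th, coeff_C]
  split_ifs with h
  · subst h; simp
  · simp

lemma hat_Th (δ : Derivation ℚ A A) (F : A⟦X⟧) : hat δ (Th F) = Th (hat δ F) := by
  ext k
  rw [coeff_hat, coeff_Th, coeff_Th, coeff_hat, Derivation.leibniz]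
  simp

lemma hat_comm (δ ε : Derivation ℚ A A) (h : ∀ a, δ (ε a) = ε (δ a)) (F : A⟦X⟧) :
    hat δ (hat ε F) = hat ε (hat δ F) := by
  ext k
  simp [h]

/-! ### series with coefficients in an ideal -/

/-- the ideal of the series with all coefficients in `Z` -/
noncomputable def ZS (Z : Ideal A) : Ideal A⟦X⟧ :=
  RingHom.ker (PowerSeries.map (Ideal.Quotient.mk Z))

lemma mem_ZS {Z : Ideal A} {F : A⟦X⟧} : F ∈ ZS Z ↔ ∀ k, coeff k F ∈ Z := by
  unfold ZS
  rw [RingHom.mem_ker, PowerSeries.ext_iff]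
  constructor
  · intro h k
    have := h k
    rw [coeff_map] at this
    simpa [Ideal.Quotient.eq_zero_iff_mem] using this
  · intro h k
    rw [coeff_map]
    simpa [Ideal.Quotient.eq_zero_iff_mem] using h k

lemma C_mem_ZS {Z : Ideal A} {a : A} (h : a ∈ Z) : (C a : A⟦X⟧) ∈ ZS Z := by
  rw [mem_ZS]
  intro k
  rw [coeff_C]
  split_ifs
  · exact h
  · exact Z.zero_mem

lemma Th_mem_ZS {Z : Ideal A} {F : A⟦X⟧} (h : F ∈ ZS Z) : Th F ∈ ZS Z := by
  rw [mem_ZS] at h ⊢
  intro k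
  rw [coeff_Th]
  exact Z.mul_mem_left _ (h k)

lemma hat_mem_ZS {Z : Ideal A} (δ : Derivation ℚ A A) (hδ : ∀ a ∈ Z, δ a ∈ Z) {F : A⟦X⟧}
    (h : F ∈ ZS Z) : hat δ F ∈ ZS Z := by
  rw [mem_ZS] at h ⊢
  intro k
  rw [coeff_hat]
  exact hδ _ (h k)

variable (c : Calculus A)

/-- `dx` is injective on `Z` -/
lemma Calculus.inj {a : A} (ha : a ∈ c.Z) (h : c.dx a = 0) : a = 0 := by
  rw [← c.J_dx a ha, h, map_zero]

lemma Calculus.hinj {F : A⟦X⟧} (hF : F ∈ ZS c.Z) (h : hat c.dx F = 0) : F = 0 := by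
  ext k
  rw [mem_ZS] at hF
  rw [map_zero]
  apply c.inj (hF k)
  rw [← coeff_hat, h, map_zero]

lemma Calculus.dy_J {a : A} (ha : a ∈ c.Z) : c.dy (c.J a) = c.J (c.dy a) := by
  have h1 : c.dy (c.J a) - c.J (c.dy a) ∈ c.Z :=
    c.Z.sub_mem (c.dy_mem _ (c.J_mem _ ha)) (c.J_mem _ (c.dy_mem _ ha))
  have h2 := c.inj h1 (by rw [map_sub, c.comm, c.dx_J _ ha, c.dx_J _ (c.dy_mem _ ha), sub_self])
  exact sub_eq_zero.mp h2

/-! ### the wave function -/

/-- the approximations of the wave function -/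
noncomputable def Papp (u : A) : ℕ → A⟦X⟧
  | 0 => 1
  | k + 1 => Papp u k + C (algebraMap ℚ A (1 / 3) * (c.J (c.dy (coeff k (Papp u k)))
      - coeff (k + 1) (Papp u k ^ 3)) - u * coeff k (Papp u k)) * X ^ (k + 1)

/-- the wave function `P` (in the variable `X = λ⁻²`): `p = λ P`. -/
noncomputable def P (u : A) : A⟦X⟧ := PowerSeries.mk fun k => coeff k (Papp c u k)

lemma coeff_C_mul_X_pow' (a : A) (m n : ℕ) :
    coeff m (C a * X ^ n : A⟦X⟧) = if m = n then a else 0 := by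
  rw [coeff_C_mul, coeff_X_pow]
  split_ifs <;> simp

lemma coeff_Papp_of_lt (u : A) (j : ℕ) : ∀ m, j < m → coeff m (Papp c u j) = 0 := by
  induction j with
  | zero =>
    intro m hm
    rw [Papp, coeff_one, if_neg (by omega)]
  | succ j ih =>
    intro m hm
    rw [Papp, map_add, ih m (by omega), coeff_C_mul_X_pow', if_neg (by omega), add_zero]

lemma coeff_Papp_of_le (u : A) (k : ℕ) : ∀ j, k ≤ j → coeff k (Papp c u j) = coeff k (P c u) := by
  intro j hj
  induction j, hj using Nat.le_induction with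
  | base => rw [P, coeff_mk]
  | succ j hj ih =>
    rw [Papp, map_add, ih, coeff_C_mul_X_pow', if_neg (by omega), add_zero]

lemma coeff_P_zero (u : A) : coeff 0 (P c u) = 1 := by
  rw [P, coeff_mk, Papp]
  simp

lemma coeff_P_succ (u : A) (k : ℕ) : coeff (k + 1) (P c u) =
    algebraMap ℚ A (1 / 3) * (c.J (c.dy (coeff k (P c u))) - coeff (k + 1) (Papp c u k ^ 3))
      - u * coeff k (P c u) := by
  rw [P, coeff_mk, coeff_mk, Papp, map_add, coeff_C_mul_X_pow', if_pos rfl,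
    coeff_Papp_of_lt c u k (k + 1) (by omega), zero_add]

/-- the tail -/
lemma P_eq_Papp_add (u : A) (k : ℕ) :
    ∃ R : A⟦X⟧, P c u = Papp c u k + X ^ (k + 1) * R ∧ coeff 0 R = coeff (k + 1) (P c u) := by
  have h : X ^ (k + 1) ∣ P c u - Papp c u k := by
    rw [X_pow_dvd_iff]
    intro m hm
    rw [map_sub, coeff_Papp_of_le c u m k (by omega), sub_self]
  obtain ⟨R, hR⟩ := h
  refine ⟨R, by rw [← hR]; ring, ?_⟩
  have h1 : coeff (k + 1) (P c u - Papp c u k) = coeff (k + 1) (X ^ (k + 1) * R) := by rw [hR]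
  rw [map_sub, coeff_Papp_of_lt c u k (k + 1) (by omega), sub_zero] at h1
  rw [h1]
  have := coeff_X_pow_mul R (k + 1) 0
  rw [zero_add] at this
  exact this.symm

lemma coeff_P_cube (u : A) (k : ℕ) : coeff (k + 1) (P c u ^ 3) =
    coeff (k + 1) (Papp c u k ^ 3) + 3 * coeff (k + 1) (P c u) := by
  obtain ⟨R, hR, hR0⟩ := P_eq_Papp_add c u k
  have h0 : coeff 0 (Papp c u k) = 1 := by
    rw [coeff_Papp_of_le c u 0 k (by omega), coeff_P_zero]
  have e : P c u ^ 3 = Papp c u k ^ 3 + X ^ (k + 1) * (3 * Papp c u k ^ 2 * R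
      + X * (X ^ k * (3 * Papp c u k * R ^ 2 + X ^ (k + 1) * R ^ 3))) := by
    rw [hR]; ring
  rw [e, map_add]
  congr 1
  have := coeff_X_pow_mul (3 * Papp c u k ^ 2 * R
      + X * (X ^ k * (3 * Papp c u k * R ^ 2 + X ^ (k + 1) * R ^ 3))) (k + 1) 0
  rw [zero_add] at this
  rw [this, ← hR0]
  rw [coeff_zero_eq_constantCoeff_apply] at h0 ⊢
  rw [coeff_zero_eq_constantCoeff_apply]
  have h3 : constantCoeff (3 : A⟦X⟧) = 3 := map_ofNat constantCoeff 3
  simp [h0, h3]

/-- `Q₃ = P³ + 3 u X P` -/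
noncomputable def Q3 (u : A) : A⟦X⟧ := P c u ^ 3 + 3 * C u * X * P c u

lemma coeff_Q3_succ (u : A) (k : ℕ) : coeff (k + 1) (Q3 c u) = c.J (c.dy (coeff k (P c u))) := by
  have h3 : (3 : A) * algebraMap ℚ A (1 / 3) = 1 := by
    have : (3 : A) = algebraMap ℚ A 3 := (map_ofNat (algebraMap ℚ A) 3).symm
    rw [this, ← map_mul]
    norm_num
  have e : (3 * C u * X * P c u : A⟦X⟧) = X * (C (3 * u) * P c u) := by
    rw [map_mul]
    have : (C (3 : A) : A⟦X⟧) = 3 := map_ofNat C 3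
    rw [this]; ring
  rw [Q3, map_add, coeff_P_cube, e, coeff_succ_X_mul, coeff_C_mul, coeff_P_succ]
  linear_combination (c.J (c.dy (coeff k (P c u))) - coeff (k + 1) (Papp c u k ^ 3)) * h3

lemma coeff_Q3_zero (u : A) : coeff 0 (Q3 c u) = 1 := by
  have h0 := coeff_P_zero c u
  rw [coeff_zero_eq_constantCoeff_apply] at h0 ⊢
  simp [Q3, h0]

lemma Papp_sub_one_mem (u : A) (hu : u ∈ c.Z) (k : ℕ) : Papp c u k - 1 ∈ ZS c.Z := by
  induction k with
  | zero => simp [Papp]
  | succ k ih =>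
    rw [Papp]
    have key : algebraMap ℚ A (1 / 3) * (c.J (c.dy (coeff k (Papp c u k)))
      - coeff (k + 1) (Papp c u k ^ 3)) - u * coeff k (Papp c u k) ∈ c.Z := by
      refine c.Z.sub_mem (c.Z.mul_mem_left _ (c.Z.sub_mem ?_ ?_)) (c.Z.mul_mem_right _ hu)
      · have h1 := (mem_ZS.mp ih) k
        rw [map_sub, coeff_one] at h1
        split_ifs at h1 with h0
        · have h2 : coeff k (Papp c u k) = (coeff k (Papp c u k) - 1) + 1 := by ring
          rw [h2, map_add, Derivation.map_one_eq_zero, add_zero]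
          exact c.J_mem _ (c.dy_mem _ h1)
        · rw [sub_zero] at h1
          exact c.J_mem _ (c.dy_mem _ h1)
      · have h1 : Papp c u k ^ 3 - 1 ∈ ZS c.Z := by
          have e : Papp c u k ^ 3 - 1
            = (Papp c u k ^ 2 + Papp c u k + 1) * (Papp c u k - 1) := by ring
          rw [e]
          exact Ideal.mul_mem_left _ _ ih
        have h2 := (mem_ZS.mp h1) (k + 1)
        rw [map_sub, coeff_one, if_neg (by omega), sub_zero] at h2
        exact h2
    have e : Papp c u k + C (algebraMap ℚ A (1 / 3) * (c.J (c.dy (coeff k (Papp c u k)))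
      - coeff (k + 1) (Papp c u k ^ 3)) - u * coeff k (Papp c u k)) * X ^ (k + 1) - 1
      = (Papp c u k - 1) + C (algebraMap ℚ A (1 / 3) * (c.J (c.dy (coeff k (Papp c u k)))
      - coeff (k + 1) (Papp c u k ^ 3)) - u * coeff k (Papp c u k)) * X ^ (k + 1) := by ring
    rw [e]
    exact (ZS c.Z).add_mem ih (Ideal.mul_mem_right _ _ (C_mem_ZS key))

lemma P_sub_one_mem (u : A) (hu : u ∈ c.Z) : P c u - 1 ∈ ZS c.Z := by
  rw [mem_ZS]
  intro k
  have h := (mem_ZS.mp (Papp_sub_one_mem c u hu k)) k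
  rw [map_sub] at h ⊢
  rw [P, coeff_mk]
  exact h

/-- the equation `p_y = (p³ + 3 u p)_x` -/
lemma P_eqn (u : A) (hu : u ∈ c.Z) : X * hat c.dy (P c u) = hat c.dx (Q3 c u) := by
  ext k
  cases k with
  | zero =>
    rw [coeff_hat, coeff_Q3_zero]
    simp
  | succ k =>
    rw [coeff_succ_X_mul, coeff_hat, coeff_hat, coeff_Q3_succ]
    have h1 := (mem_ZS.mp (P_sub_one_mem c u hu)) k
    have h2 : c.dy (coeff k (P c u)) = c.dy (coeff k (P c u - 1)) := by
      rw [map_sub, map_sub, coeff_one]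
      split_ifs <;> simp
    rw [h2, c.dx_J _ (c.dy_mem _ h1)]

end Q235.BK
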